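import Pool.Agent.Lib.H10R.Base

/-!
# B1: no carries

Chunk B1 of H10R.
-/

set_option autoImplicit false

namespace Pool.Agent.Lib.H10R

open Pool.Agent.PolyTime Pool.Agent.Lib.CookLevin
open Pool.Agent.Lib.H48MaxScatter (encNat encInt parseNat)

private lemma b1_val_replicate (n : ℕ) : val (List.replicate n false) = 0 := by
  induction n with
  | zero => rfl
  | succ n ih => rw [List.replicate_succ, val_cons, ih]; rfl

/-- B1 (M). Induction on `rows`. Put `B = 2 ^ (V.length + 1)`. By `val_append` (and `val_map_false`,
`List.length_map`), `num mem (r :: rows) V v = (mem r v).toNat + B * num mem rows V v` and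
`target (r :: rows) V = 1 + B * target rows V`. Hence the sum over `S` is
`c + B * (sum for rows)`, where `c = (S.filter fun v => mem r v = true).card ≤ S.card ≤ V.length < B` and
`1 < B`. Compare the remainders mod `B` (`Nat.add_mul_mod_self_left`, `Nat.mod_eq_of_lt`): the
two numbers are equal iff `c = 1` and the quotients are equal. -/
theorem sum_num_eq_target_iff {α β : Type*} [DecidableEq α] (mem : β → α → Bool) (rows : List β)
    (V : List α) (S : Finset α) (hS : S.card ≤ V.length) :
    ∑ v ∈ S, num mem rows V v = target rows V ↔
      ∀ r ∈ rows, (S.filter fun v => mem r v = true).card = 1 := by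
  induction rows with
  | nil => simp [num, target]
  | cons r rows ih =>
    have h1 : ∀ v, num mem (r :: rows) V v =
        (mem r v).toNat + 2 ^ (V.length + 1) * num mem rows V v := by
      intro v
      simp only [num, List.flatMap_cons]
      rw [val_append]
      simp [b1_val_replicate]
    have h2 : target (r :: rows) V = 1 + 2 ^ (V.length + 1) * target rows V := by
      simp only [target, List.flatMap_cons]
      rw [val_append]
      simp [b1_val_replicate]
    have h3 : ∑ v ∈ S, (mem r v).toNat = (S.filter fun v => mem r v = true).card := by
      rw [Finset.card_filter]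
      refine Finset.sum_congr rfl fun v _ => ?_
      cases mem r v <;> rfl
    have h4 : (S.filter fun v => mem r v = true).card ≤ V.length :=
      (Finset.card_filter_le _ _).trans hS
    have h5 : V.length < 2 ^ V.length := Nat.lt_two_pow_self
    have h6 : 2 ^ (V.length + 1) = 2 * 2 ^ V.length := by rw [pow_succ]; ring
    simp only [h1, h2, Finset.sum_add_distrib, h3, ← Finset.mul_sum, List.forall_mem_cons, ← ih]
    generalize (S.filter fun v => mem r v = true).card = c at *
    generalize ∑ v ∈ S, num mem rows V v = a at *
    generalize target rows V = b at *
    constructor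
    · intro h
      have h7 : c = 1 := by
        have h8 := congrArg (· % 2 ^ (V.length + 1)) h
        simp only [Nat.add_mul_mod_self_left] at h8
        rwa [Nat.mod_eq_of_lt (by omega), Nat.mod_eq_of_lt (by omega)] at h8
      subst h7
      refine ⟨rfl, ?_⟩
      have h9 : 2 ^ (V.length + 1) * a = 2 ^ (V.length + 1) * b := by omega
      exact Nat.eq_of_mul_eq_mul_left (by positivity) h9
    · rintro ⟨rfl, rfl⟩
      rfl

/-- B1' (S). If some row contains `v` then the number of `v` is positive: `val l` is positive if
`true ∈ l` (induction on `l`, `val_cons`). -/
theorem num_pos {α β : Type*} (mem : β → α → Bool) (rows : List β) (V : List α) (v : α)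
    (h : ∃ r ∈ rows, mem r v = true) : 0 < num mem rows V v := by
  have key : ∀ l : List Bool, true ∈ l → 0 < val l := by
    intro l
    induction l with
    | nil => intro h; simp at h
    | cons b l ih =>
      intro h
      rw [val_cons]
      cases b with
      | true => simp
      | false =>
        have := ih (by simpa using h)
        simp; omega
  refine key _ ?_
  obtain ⟨r, hr, hv⟩ := h
  rw [List.mem_flatMap]
  exact ⟨r, hr, by simp [hv]⟩

end Pool.Agent.Lib.H10R
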