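import Pool.Agent.Lib.H10R.Defs
import Pool.Agent.Lib.CookLevin.TableauPT
import Pool.Agent.Lib.CookLevin.TMLocal
import Pool.Agent.Lib.PolyTime.Final
import Pool.Agent.Lib.H48MaxScatter.Decode

/-!
# Definitions used in the proof that RTMP is PP-complete
-/

set_option autoImplicit false

namespace Pool.Agent.Lib.H10R

open Pool.Agent.PolyTime Pool.Agent.Lib.CookLevin
open Pool.Agent.Lib.H48MaxScatter (encNat encInt parseNat)

/-! ### Counting -/

/-- the number of sets of indices of `l` whose sum (of the values of `f`) satisfies `p` -/
noncomputable def fc {α : Type*} (f : α → ℕ) (l : List α) (p : ℕ → Prop) : ℕ :=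
  Nat.card {S : Finset (Fin l.length) // p (∑ i ∈ S, f (l.get i))}

/-- the number of words of length `m` which satisfy `p` -/
noncomputable def cw (m : ℕ) (p : Word → Prop) : ℕ := Nat.card {y : Word // y.length = m ∧ p y}

/-- the sum of the entries of `a` selected by the word `s` -/
def selSum (s : Word) (a : List ℕ) : ℕ := (List.zipWith (fun b n => bif b then n else 0) s a).sum

/-- the power `2 ^ l.length`, in polynomial time -/
def pow2 {β : Type*} (l : List β) : ℕ := val (l.map (fun _ => false) ++ [true])

/-! ### Reading an instance of RTMP -/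

/-- raw integers: sign and absolute value -/
abbrev RI : Type := Bool × ℕ

/-- sign and absolute value -/
def rawI (z : ℤ) : RI := (decide (z < 0), z.natAbs)

/-- the raw pair -/
def rawP (p : ℤ × ℤ) : RI × RI := (rawI p.1, rawI p.2)

/-- the code of a raw integer -/
def encRI (x : RI) : Word := x.1 :: encNat x.2

/-- the code of a raw instance -/
def encRaw (l : List (RI × RI)) (K : ℕ) : Word :=
  (l.flatMap fun p => true :: (encRI p.1 ++ encRI p.2)) ++ false :: encNat K

/-- is a raw integer the sign and absolute value of an integer? -/
def okI (x : RI) : Bool := !(x.1 && decide (x.2 = 0))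

/-- the raw integer at the beginning of a word, and the rest of the word -/
def parseI (w : Word) : RI × Word := ((w.headD false, (parseNat w.tail).1), (parseNat w.tail).2)

/-- the raw pair at the beginning of a word, and the rest of the word -/
def parseP (w : Word) : (RI × RI) × Word :=
  (((parseI w).1, (parseI (parseI w).2).1), (parseI (parseI w).2).2)

/-- read one more pair -/
def rstep (s : List (RI × RI) × Word) : List (RI × RI) × Word :=
  bif s.2.headD false then ((parseP s.2.tail).1 :: s.1, (parseP s.2.tail).2) else s

/-- read all pairs -/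
def readPairs (w : Word) : List (RI × RI) × Word := rstep^[w.length] ([], w)

/-- read an instance -/
def readInst (w : Word) : List (RI × RI) × ℕ :=
  ((readPairs w).1.reverse, (parseNat (readPairs w).2.tail).1)

/-- is the word an instance? -/
def validB (w : Word) : Bool :=
  decide (encRaw (readInst w).1 (readInst w).2 = w) &&
    (readInst w).1.all fun p => okI p.1 && okI p.2

/-- `|x - y|` for a raw pair `(x, y)` -/
def rdist (p : RI × RI) : ℕ :=
  bif Bool.xor p.1.1 p.2.1 then p.1.2 + p.2.2 else (p.1.2 - p.2.2) + (p.2.2 - p.1.2)

/-- `x - y` if `x > y`, otherwise `0`, for a raw pair `(x, y)` -/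
def rpos (p : RI × RI) : ℕ :=
  bif p.1.1 then (bif p.2.1 then p.2.2 - p.1.2 else 0)
  else (bif p.2.1 then p.1.2 + p.2.2 else p.1.2 - p.2.2)

/-- the verifier for RTMP; the certificate is `b :: s` -/
def ppVerify (p : Word × Word) : Bool :=
  validB p.1 &&
    bif p.2.headD false then
      decide (selSum p.2.tail ((readInst p.1).1.map rdist) ≤ ((readInst p.1).1.map rpos).sum)
    else
      decide (val p.2.tail + (readInst p.1).2 * pow2 (p.1.drop (readInst p.1).1.length) ≤ pow2 p.1)

/-! ### Verifiers from CNF formulas -/

/-- the variables of a formula, with repetitions -/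
def occ (F : List (List (ℕ × Bool))) : List ℕ := F.flatten.map Prod.fst

/-- does the assignment, true exactly at the variables marked by `s`, satisfy the formula? -/
def chk (F : List (List (ℕ × Bool))) (s : Word) : Bool :=
  F.all fun cl => cl.any fun l =>
    decide (decide (l.1 ∈ (((occ F).zip s).filter fun q => q.2).map Prod.fst) = l.2)

/-! ### Subset sums from exact covers -/

/-- the number of the element `v`: one digit (in base `2 ^ (V.length + 1)`) for every row; the digit
is `1` iff `v` belongs to the row -/
def num {α β : Type*} (mem : β → α → Bool) (rows : List β) (V : List α) (v : α) : ℕ :=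
  val (rows.flatMap fun r => mem r v :: V.map fun _ => false)

/-- the target: every digit is `1` -/
def target {α β : Type*} (rows : List β) (V : List α) : ℕ :=
  val (rows.flatMap fun _ => true :: V.map fun _ => false)

/-- the number `|2 t - A|` -/
def kw (A t : ℕ) : ℕ := (2 * t - A) + (A - 2 * t)

/-- the bound `max t (A - t)` -/
def kb (A t : ℕ) : ℕ := max t (A - t)

/-- the pairs of the instance for the numbers `a` and the target `t` -/
def kpairs (a : List ℕ) (t : ℕ) : List (ℤ × ℤ) :=
  ((kb a.sum t : ℕ), 0) :: (0, (kw a.sum t : ℕ)) :: a.map fun n => (0, (n : ℤ))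

/-! ### The exact cover of a tableau -/

/-- options `(t, i, e)`: `e = (m, in, out)` is an entry of the table of the rule (for `t > 0`), or
`(b, [], out)` (for `t = 0`) -/
abbrev Opt : Type := ℕ × ℕ × ℕ × List ℕ × ℕ

/-- rows `(t, i, 0, 0)` (slots) and `(t, i, k + 1, a)` (consistency) -/
abbrev Row : Type := ℕ × ℕ × ℕ × ℕ

section cover

variable (M : Tab) {β γ : Type*}

/-- a list whose length is the number of cells at time `t` -/
def wid (x : Word) (P : List β) (Q : List γ) (t : ℕ) : List Unit :=
  ((Q.drop t).flatMap fun _ => List.replicate M.c ()) ++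
    (List.replicate (M.c + 1) () ++ (x.map (fun _ => ()) ++ () :: P.map fun _ => ()))

/-- the options for cell `i` at time `0` -/
def initOpts (x : Word) (P : List β) (i : ℕ) : List (ℕ × List ℕ × ℕ) :=
  (x.map (fun b => [(0, [], M.sym b)]) ++ [(0, [], M.sep)] ::
    P.map fun _ => [(0, [], M.sym false), (1, [], M.sym true)]).getD i [(0, [], M.blank)]

/-- the entries of the table with an accepting value -/
def accTable : List (ℕ × List ℕ × ℕ) := M.table.filter fun e => M.acc e.2.2

/-- the options for cell `i` at time `t > 0`; the value of cell `0` at time `T` is accepting -/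
def stepOpts (T t i : ℕ) : List (ℕ × List ℕ × ℕ) :=
  (bif decide (t = T) && decide (i = 0) then accTable M else M.table).filter fun e =>
    decide (e.1 = min i M.c)

/-- the options for cell `i` at time `t` -/
def opts (x : Word) (P : List β) (Q : List γ) (t i : ℕ) : List (ℕ × List ℕ × ℕ) :=
  bif decide (t = 0) then initOpts M x P i else stepOpts M Q.length t i

/-- all options -/
def allOpts (x : Word) (P : List β) (Q : List γ) : List Opt :=
  (List.range (Q.length + 1)).flatMap fun t =>
    (List.range (wid M x P Q t).length).flatMap fun i =>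
      (opts M x P Q t i).map fun e => (t, i, e)

/-- all rows -/
def allRows (x : Word) (P : List β) (Q : List γ) : List Row :=
  (List.range (Q.length + 1)).flatMap fun t =>
    (List.range (wid M x P Q t).length).flatMap fun i =>
      (t, i, 0, 0) :: (bif decide (t = 0) then [] else
        (List.range (3 * M.c + 1)).flatMap fun k => (List.range M.K).map fun a => (t, i, k + 1, a))

/-- does the option `v` belong to the row `r`? -/
def mem (r : Row) (v : Opt) : Bool :=
  bif decide (r.2.2.1 = 0) then decide (v.1 = r.1) && decide (v.2.1 = r.2.1)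
  else (decide (v.1 = r.1) && decide (v.2.1 = r.2.1) &&
      decide (v.2.2.2.1.getD (r.2.2.1 - 1) 0 = r.2.2.2)) ||
    (decide (v.1 + 1 = r.1) && decide (v.2.1 = (M.pos r.2.1).getD (r.2.2.1 - 1) 0) &&
      !decide (v.2.2.2.2 = r.2.2.2))

/-- the set `S` of options contains exactly one element of every row -/
def Good (x : Word) (P : List β) (Q : List γ) (S : Finset Opt) : Prop :=
  S ⊆ (allOpts M x P Q).toFinset ∧
    ∀ r ∈ allRows M x P Q, (S.filter fun v => mem M r v = true).card = 1

/-- the set of the options chosen by `e` -/
def optSet (x : Word) (P : List β) (Q : List γ) (e : ℕ → ℕ → ℕ × List ℕ × ℕ) : Finset Opt :=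
  (Finset.range (Q.length + 1)).biUnion fun t =>
    (Finset.range (wid M x P Q t).length).image fun i => (t, i, e t i)

/-- `e t i` is an option for cell `i` at time `t`, and the options are consistent -/
structure IsSol (x : Word) (P : List β) (Q : List γ) (e : ℕ → ℕ → ℕ × List ℕ × ℕ) : Prop where
  opt : ∀ t ≤ Q.length, ∀ i < (wid M x P Q t).length, e t i ∈ opts M x P Q t i
  con : ∀ t < Q.length, ∀ i < (wid M x P Q (t + 1)).length, ∀ k < 3 * M.c + 1,
    (e (t + 1) i).2.1.getD k 0 = (e t ((M.pos i).getD k 0)).2.2

/-- the options of the computation with the certificate `y` -/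
def canon (x y : Word) : ℕ → ℕ → ℕ × List ℕ × ℕ
  | 0, i => ((bif decide (x.length < i) && y.getD (i - (x.length + 1)) false then 1 else 0), [],
      M.initRow x y i)
  | t + 1, i => (min i M.c, (M.pos i).map (M.next^[t] (M.initRow x y)),
      (M.next^[t + 1] (M.initRow x y)) i)

/-- the list of numbers of the instance -/
def nums (x : Word) (P : List β) (Q : List γ) : List ℕ :=
  (allOpts M x P Q).map (num (mem M) (allRows M x P Q) (allOpts M x P Q))

/-- the target of the instance -/
def targ (x : Word) (P : List β) (Q : List γ) : ℕ := target (allRows M x P Q) (allOpts M x P Q)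

/-- the bound `K` of the instance -/
def bound (x : Word) (P : List β) (Q : List γ) : ℕ :=
  pow2 (allOpts M x P Q) + (pow2 P / 2 + 1) +
    bif decide (kw (nums M x P Q).sum (targ M x P Q) = 0) then 2 else 1

/-- the word of the instance -/
def inst (x : Word) (P : List β) (Q : List γ) : Word :=
  encInst (kpairs (nums M x P Q) (targ M x P Q)) (bound M x P Q)

end cover

end Pool.Agent.Lib.H10R
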