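import Pool.Agent.Lib.H10R.Base

/-!
# C1: counting sets of indices, recursion on the list

Chunk C1 of H10R.
-/

set_option autoImplicit false

namespace Pool.Agent.Lib.H10R

open Pool.Agent.PolyTime Pool.Agent.Lib.CookLevin
open Pool.Agent.Lib.H48MaxScatter (encNat encInt parseNat)

/-- C1a (S). `Finset (Fin 0)` has one element. -/
theorem fc_nil {α : Type*} (f : α → ℕ) (p : ℕ → Prop) [Decidable (p 0)] :
    fc f ([] : List α) p = if p 0 then 1 else 0 := by
  unfold fc
  split_ifs with h
  · have : Unique {S : Finset (Fin ([] : List α).length) // p (∑ i ∈ S, f (([] : List α).get i))} :=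
      { default := ⟨∅, by simpa using h⟩
        uniq := fun S => by
          apply Subtype.ext
          apply Finset.ext
          intro i
          exact absurd i.2 (by simp) }
    exact Nat.card_unique
  · have : IsEmpty {S : Finset (Fin ([] : List α).length) // p (∑ i ∈ S, f (([] : List α).get i))} := by
      constructor
      rintro ⟨S, hS⟩
      apply h
      have : S = ∅ := by
        apply Finset.ext
        intro i
        exact absurd i.2 (by simp)
      subst this
      simpa using hS
    exact Nat.card_of_isEmpty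

/-- the map which adds the new index or not -/
private noncomputable def c1map (n : ℕ) (g : Fin (n + 1) → ℕ) (p : ℕ → Prop) :
    {S : Finset (Fin n) // p (g 0 + ∑ i ∈ S, g i.succ)} ⊕ {S : Finset (Fin n) // p (∑ i ∈ S, g i.succ)} →
      {S : Finset (Fin (n + 1)) // p (∑ i ∈ S, g i)}
  | Sum.inl S => ⟨insert 0 (S.1.map (Fin.succEmb n)), by
      rw [Finset.sum_insert (by simp [Fin.succ_ne_zero]), Finset.sum_map]
      exact S.2⟩
  | Sum.inr S => ⟨S.1.map (Fin.succEmb n), by
      rw [Finset.sum_map]
      exact S.2⟩

private theorem c1map_zero (n : ℕ) (g : Fin (n + 1) → ℕ) (p : ℕ → Prop) (x) :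
    0 ∈ (c1map n g p x).1 ↔ x.isLeft = true := by
  cases x with
  | inl S => simp [c1map]
  | inr S => simp [c1map, Fin.succ_ne_zero]

private theorem c1map_succ (n : ℕ) (g : Fin (n + 1) → ℕ) (p : ℕ → Prop) (x) (i : Fin n) :
    i.succ ∈ (c1map n g p x).1 ↔ i ∈ (Sum.elim (fun S => S.1) (fun S => S.1) x : Finset (Fin n)) := by
  cases x with
  | inl S => simp [c1map, Fin.succ_ne_zero]
  | inr S => simp [c1map]

private theorem c1key (n : ℕ) (g : Fin (n + 1) → ℕ) (p : ℕ → Prop) :
    Nat.card {S : Finset (Fin (n + 1)) // p (∑ i ∈ S, g i)} =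
      Nat.card {S : Finset (Fin n) // p (g 0 + ∑ i ∈ S, g i.succ)} +
        Nat.card {S : Finset (Fin n) // p (∑ i ∈ S, g i.succ)} := by
  rw [← Nat.card_sum]
  refine (Nat.card_congr (Equiv.ofBijective (c1map n g p) ⟨?_, ?_⟩)).symm
  · intro x y hxy
    have h0 := c1map_zero n g p x
    have h0' := c1map_zero n g p y
    rw [hxy] at h0
    have hl : (x.isLeft = true) ↔ (y.isLeft = true) := h0.symm.trans h0'
    have hs : ∀ i : Fin n, i ∈ (Sum.elim (fun S => S.1) (fun S => S.1) x : Finset (Fin n)) ↔
        i ∈ (Sum.elim (fun S => S.1) (fun S => S.1) y : Finset (Fin n)) := by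
      intro i
      rw [← c1map_succ, ← c1map_succ, hxy]
    cases x with
    | inl S =>
      cases y with
      | inl T =>
        congr 1
        exact Subtype.ext (Finset.ext hs)
      | inr T => simp at hl
    | inr S =>
      cases y with
      | inl T => simp at hl
      | inr T =>
        congr 1
        exact Subtype.ext (Finset.ext hs)
  · rintro ⟨S, hS⟩
    classical
    have e1 : (Finset.univ.filter fun i : Fin n => i.succ ∈ S).map (Fin.succEmb n) = S.erase 0 := by
      apply Finset.ext
      intro i
      refine Fin.cases ?_ (fun j => ?_) i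
      · simp [Fin.succ_ne_zero]
      · simp [Fin.succ_ne_zero]
    by_cases h0 : (0 : Fin (n + 1)) ∈ S
    · have e2 : insert 0 ((Finset.univ.filter fun i : Fin n => i.succ ∈ S).map (Fin.succEmb n)) = S := by
        rw [e1, Finset.insert_erase h0]
      refine ⟨Sum.inl ⟨Finset.univ.filter fun i : Fin n => i.succ ∈ S, ?_⟩, ?_⟩
      · have h3 : g 0 + ∑ i ∈ Finset.univ.filter (fun i : Fin n => i.succ ∈ S), g i.succ =
            ∑ i ∈ S, g i := by
          conv_rhs => rw [← e2]
          rw [Finset.sum_insert (by simp [Fin.succ_ne_zero]), Finset.sum_map]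
          rfl
        rw [h3]
        exact hS
      · exact Subtype.ext e2
    · have e2 : (Finset.univ.filter fun i : Fin n => i.succ ∈ S).map (Fin.succEmb n) = S := by
        rw [e1, Finset.erase_eq_of_notMem h0]
      refine ⟨Sum.inr ⟨Finset.univ.filter fun i : Fin n => i.succ ∈ S, ?_⟩, ?_⟩
      · have h3 : ∑ i ∈ Finset.univ.filter (fun i : Fin n => i.succ ∈ S), g i.succ =
            ∑ i ∈ S, g i := by
          conv_rhs => rw [← e2]
          rw [Finset.sum_map]
          rfl
        rw [h3]
        exact hS
      · exact Subtype.ext e2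

/-- C1b (M). Split the sets `S` of indices of `a :: l` according to `0 ∈ S`. Possible proof: for
`g : Fin (n + 1) → ℕ` the sets `S : Finset (Fin (n + 1))` correspond to the pairs `(b, S')` with
`b : Bool` and `S' : Finset (Fin n)` (`S = (bif b then {0} else ∅) ∪ S'.map (Fin.succEmb n)`), and the
sum over `S` is `(bif b then g 0 else 0) + ∑ i ∈ S', g i.succ`. Write `Nat.card` of the subtype as
`Fintype.card`/`Finset.card` of a filter (`open Classical`) or build an `Equiv` with a sum type and use
`Nat.card_sum`. -/
theorem fc_cons {α : Type*} (f : α → ℕ) (a : α) (l : List α) (p : ℕ → Prop) :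
    fc f (a :: l) p = fc f l (fun s => p (f a + s)) + fc f l p :=
  c1key l.length (fun i => f ((a :: l).get i)) p

/-- C1c (S). Induction on `l` with C1a and C1b. -/
theorem fc_map {α β : Type*} (f : α → ℕ) (g : β → α) (l : List β) (p : ℕ → Prop) :
    fc f (l.map g) p = fc (fun b => f (g b)) l p := by
  classical
  induction l generalizing p with
  | nil => rw [List.map_nil, fc_nil, fc_nil]
  | cons b l ih => rw [List.map_cons, fc_cons, fc_cons, ih, ih]

/-- C1d (S). Induction on `l` with C1a and C1b (`p` general). -/
theorem fc_true {α : Type*} (f : α → ℕ) (l : List α) : fc f l (fun _ => True) = 2 ^ l.length := by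
  induction l with
  | nil => rw [fc_nil]; simp
  | cons a l ih => rw [fc_cons, ih, List.length_cons, pow_succ]; ring

/-- C1e (S). -/
theorem fc_false {α : Type*} (f : α → ℕ) (l : List α) : fc f l (fun _ => False) = 0 := by
  unfold fc
  have : IsEmpty {S : Finset (Fin l.length) // (fun _ : ℕ => False) (∑ i ∈ S, f (l.get i))} :=
    ⟨fun S => S.2⟩
  exact Nat.card_of_isEmpty

end Pool.Agent.Lib.H10R
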