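import Pool.Agent.Lib.H10R.Base

/-!
# C2: sets of indices of a list without repetitions

Chunk C2 of H10R.
-/

set_option autoImplicit false

namespace Pool.Agent.Lib.H10R

open Pool.Agent.PolyTime Pool.Agent.Lib.CookLevin
open Pool.Agent.Lib.H48MaxScatter (encNat encInt parseNat)

/-- C2 (M). The map `S ↦ S.map ⟨l.get, List.nodup_iff_injective_get.1 hl⟩` (or `S.image l.get`) is a
bijection from `Finset (Fin l.length)` onto the subsets of `l.toFinset`, and
`∑ v ∈ S.map .., f v = ∑ i ∈ S, f (l.get i)` (`Finset.sum_map`). Use `Nat.card_congr` or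
`Nat.card_eq_of_bijective`. -/
theorem fc_nodup {α : Type*} [DecidableEq α] (f : α → ℕ) {l : List α} (hl : l.Nodup)
    (p : ℕ → Prop) :
    fc f l p = Nat.card {S : Finset α // S ⊆ l.toFinset ∧ p (∑ v ∈ S, f v)} := by
  unfold fc
  have hinj : Function.Injective l.get := List.nodup_iff_injective_get.1 hl
  have hsum : ∀ S : Finset (Fin l.length),
      ∑ v ∈ S.image l.get, f v = ∑ i ∈ S, f (l.get i) := fun S =>
    Finset.sum_image fun a _ b _ h => hinj h
  have hsub : ∀ S : Finset (Fin l.length), S.image l.get ⊆ l.toFinset := by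
    intro S v hv
    obtain ⟨i, _, rfl⟩ := Finset.mem_image.1 hv
    exact List.mem_toFinset.2 (List.get_mem l i)
  refine Nat.card_eq_of_bijective
    (fun S : {S : Finset (Fin l.length) // p (∑ i ∈ S, f (l.get i))} =>
      (⟨S.1.image l.get, hsub S.1, by rw [hsum]; exact S.2⟩ :
        {S : Finset α // S ⊆ l.toFinset ∧ p (∑ v ∈ S, f v)})) ⟨?_, ?_⟩
  · intro S T h
    exact Subtype.ext (Finset.image_injective hinj (congrArg Subtype.val h))
  · rintro ⟨S, hS, hp⟩
    have himg : (Finset.univ.filter fun i : Fin l.length => l.get i ∈ S).image l.get = S := by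
      ext v
      rw [Finset.mem_image]
      constructor
      · rintro ⟨i, hi, rfl⟩
        exact (Finset.mem_filter.1 hi).2
      · intro hv
        obtain ⟨i, hi⟩ := List.mem_iff_get.1 (List.mem_toFinset.1 (hS hv))
        exact ⟨i, Finset.mem_filter.2 ⟨Finset.mem_univ _, by rw [hi]; exact hv⟩, hi⟩
    refine ⟨⟨Finset.univ.filter fun i : Fin l.length => l.get i ∈ S, ?_⟩, ?_⟩
    · rw [← hsum, himg]; exact hp
    · exact Subtype.ext himg

end Pool.Agent.Lib.H10R
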