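import Pool.Agent.Lib.H10R.Base

/-!
# C3: counting words

Chunk C3 of H10R.
-/

set_option autoImplicit false

namespace Pool.Agent.Lib.H10R

open Pool.Agent.PolyTime Pool.Agent.Lib.CookLevin
open Pool.Agent.Lib.H48MaxScatter (encNat encInt parseNat)

/-- C3a (S). The only word of length `0` is `[]`. -/
theorem cw_zero (p : Word → Prop) [Decidable (p [])] : cw 0 p = if p [] then 1 else 0 := by
  unfold cw
  split_ifs with h
  · rw [Nat.card_eq_one_iff_unique]
    refine ⟨⟨?_⟩, ⟨⟨[], rfl, h⟩⟩⟩
    rintro ⟨y, hy, _⟩ ⟨z, hz, _⟩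
    have h1 : y = [] := List.length_eq_zero_iff.1 hy
    have h2 : z = [] := List.length_eq_zero_iff.1 hz
    subst h1 h2
    rfl
  · have : IsEmpty {y : Word // y.length = 0 ∧ p y} := by
      refine ⟨?_⟩
      rintro ⟨y, hy, hp⟩
      have h1 : y = [] := List.length_eq_zero_iff.1 hy
      subst h1
      exact h hp
    exact Nat.card_of_isEmpty

private theorem cw_fin (m : ℕ) (p : Word → Prop) : Finite {y : Word // y.length = m ∧ p y} := by
  have h1 : {y : Word | y.length = m}.Finite := List.finite_length_eq Bool m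
  have h2 : {y : Word | y.length = m ∧ p y}.Finite := h1.subset fun y hy => hy.1
  exact h2.to_subtype

/-- the decomposition of a word of positive length -/
private def cw_split (m : ℕ) (p : Word → Prop) :
    {y : Word // y.length = m + 1 ∧ p y} ≃
      {y : Word // y.length = m ∧ p (true :: y)} ⊕ {y : Word // y.length = m ∧ p (false :: y)} where
  toFun
    | ⟨[], h⟩ => absurd h.1 (by simp)
    | ⟨true :: s, h⟩ => Sum.inl ⟨s, by simpa using h.1, h.2⟩
    | ⟨false :: s, h⟩ => Sum.inr ⟨s, by simpa using h.1, h.2⟩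
  invFun
    | Sum.inl s => ⟨true :: s.1, by simp [s.2.1], s.2.2⟩
    | Sum.inr s => ⟨false :: s.1, by simp [s.2.1], s.2.2⟩
  left_inv := by
    rintro ⟨y, h⟩
    match y, h with
    | [], h => exact absurd h.1 (by simp)
    | true :: s, h => rfl
    | false :: s, h => rfl
  right_inv := by
    rintro (s | s) <;> rfl

/-- C3b (M). A word of length `m + 1` is `true :: s` or `false :: s`, with `s` of length `m`: an `Equiv`
with the sum of the two subtypes, and `Nat.card_sum` (finiteness of `{y : Word // y.length = m ∧ p y}`: it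
embeds into `List.Vector Bool m`, or use `List.finite_length_eq`). -/
theorem cw_succ (m : ℕ) (p : Word → Prop) :
    cw (m + 1) p = cw m (fun s => p (true :: s)) + cw m (fun s => p (false :: s)) := by
  unfold cw
  have h1 := cw_fin m fun s => p (true :: s)
  have h2 := cw_fin m fun s => p (false :: s)
  rw [Nat.card_congr (cw_split m p)]
  exact Nat.card_sum

/-- C3c (S). Induction with C3a and C3b. -/
theorem cw_true (m : ℕ) : cw m (fun _ => True) = 2 ^ m := by
  induction m with
  | zero =>
    rw [cw_zero]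
    simp
  | succ m ih =>
    rw [cw_succ, ih, pow_succ]
    ring

/-- C3d (S). -/
theorem cw_false (m : ℕ) : cw m (fun _ => False) = 0 := by
  unfold cw
  have : IsEmpty {y : Word // y.length = m ∧ False} := ⟨fun y => y.2.2⟩
  exact Nat.card_of_isEmpty

/-- C3e (S). -/
theorem cw_pos_iff (m : ℕ) (p : Word → Prop) : 0 < cw m p ↔ ∃ y : Word, y.length = m ∧ p y := by
  unfold cw
  have h1 := cw_fin m p
  constructor
  · intro h
    obtain ⟨⟨y, hy⟩⟩ := (Nat.card_pos_iff.1 h).1
    exact ⟨y, hy⟩
  · rintro ⟨y, hy⟩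
    exact Nat.card_pos_iff.2 ⟨⟨⟨y, hy⟩⟩, h1⟩

/-- C3f (S). -/
theorem cw_congr (m : ℕ) {p p' : Word → Prop} (h : ∀ y : Word, y.length = m → (p y ↔ p' y)) :
    cw m p = cw m p' := by
  unfold cw
  refine Nat.card_congr (Equiv.subtypeEquivRight fun y => ?_)
  constructor
  · rintro ⟨h1, h2⟩
    exact ⟨h1, (h y h1).1 h2⟩
  · rintro ⟨h1, h2⟩
    exact ⟨h1, (h y h1).2 h2⟩

end Pool.Agent.Lib.H10R
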