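import Pool.Agent.Lib.H10R.C1
import Pool.Agent.Lib.H10R.C3

/-!
# C4: words which select a part of a list

Chunk C4 of H10R.
-/

set_option autoImplicit false

namespace Pool.Agent.Lib.H10R

open Pool.Agent.PolyTime Pool.Agent.Lib.CookLevin
open Pool.Agent.Lib.H48MaxScatter (encNat encInt parseNat)

private theorem c4_selSum_nil (s : Word) : selSum s [] = 0 := by
  simp [selSum]

private theorem c4_selSum_true (s : Word) (n : ℕ) (a : List ℕ) :
    selSum (true :: s) (n :: a) = n + selSum s a := by
  simp [selSum]

private theorem c4_selSum_false (s : Word) (n : ℕ) (a : List ℕ) :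
    selSum (false :: s) (n :: a) = selSum s a := by
  simp [selSum]

/-- C4 (S). Induction on `a` with `m` and `p` general. For `a = []`: `selSum s [] = 0`, `fc_nil`,
`cw_true`, `cw_false` (cases on `p 0`). For `n :: a`: `m = m' + 1`, `cw_succ`, `fc_cons`,
`selSum (true :: s) (n :: a) = n + selSum s a` and `selSum (false :: s) (n :: a) = 0 + selSum s a`. -/
theorem cw_selSum (a : List ℕ) (m : ℕ) (h : a.length ≤ m) (p : ℕ → Prop) :
    cw m (fun s => p (selSum s a)) = fc (fun n => n) a p * 2 ^ (m - a.length) := by
  classical
  induction a generalizing m p with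
  | nil =>
    have e : (fun s : Word => p (selSum s [])) = fun _ => p 0 := by
      funext s
      rw [c4_selSum_nil]
    rw [e, fc_nil, List.length_nil, Nat.sub_zero]
    by_cases h0 : p 0
    · have e1 : (fun _ : Word => p 0) = fun _ => True := by
        funext s
        simp [h0]
      rw [e1, cw_true, if_pos h0, one_mul]
    · have e1 : (fun _ : Word => p 0) = fun _ => False := by
        funext s
        simp [h0]
      rw [e1, cw_false, if_neg h0, zero_mul]
  | cons n a ih =>
    obtain ⟨m', rfl⟩ : ∃ m', m = m' + 1 := ⟨m - 1, by
      rw [List.length_cons] at h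
      omega⟩
    have h' : a.length ≤ m' := by
      rw [List.length_cons] at h
      omega
    have e1 : (fun s : Word => p (selSum (true :: s) (n :: a))) =
        fun s => (fun x => p (n + x)) (selSum s a) := by
      funext s
      rw [c4_selSum_true]
    have e2 : (fun s : Word => p (selSum (false :: s) (n :: a))) = fun s => p (selSum s a) := by
      funext s
      rw [c4_selSum_false]
    have e3 : m' + 1 - (n :: a).length = m' - a.length := by
      rw [List.length_cons]
      omega
    rw [cw_succ, e1, e2, ih m' h' (fun x => p (n + x)), ih m' h' p, fc_cons, e3, Nat.add_mul]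

end Pool.Agent.Lib.H10R
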