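import Pool.Agent.Lib.H10R.C3

/-!
# C5: words whose value is small

Chunk C5 of H10R.
-/

set_option autoImplicit false

namespace Pool.Agent.Lib.H10R

open Pool.Agent.PolyTime Pool.Agent.Lib.CookLevin
open Pool.Agent.Lib.H48MaxScatter (encNat encInt parseNat)

/-- C5a (M). Induction on `m` with `p` general: `val (b :: s) = b.toNat + 2 * val s` (`val_cons`), `cw_zero`,
`cw_succ`; the numbers below `2 ^ (m + 1)` are the numbers `1 + 2 v` and `0 + 2 v` with `v < 2 ^ m`.
(An alternative: `s ↦ val s` is a bijection from the words of length `m` onto the numbers below `2 ^ m`.) -/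
theorem cw_val (m : ℕ) (p : ℕ → Prop) [DecidablePred p] :
    cw m (fun s => p (val s)) = ((Finset.range (2 ^ m)).filter p).card := by
  classical
  induction m generalizing p with
  | zero =>
    rw [cw_zero]
    rw [pow_zero, Finset.range_one, Finset.filter_singleton, val_nil]
    by_cases h : p 0
    · simp [h]
    · simp [h]
  | succ m ih =>
    rw [cw_succ]
    have h1 : cw m (fun s => p (val (true :: s))) =
        ((Finset.range (2 ^ m)).filter (fun v => p (1 + 2 * v))).card := by
      have := ih (fun v => p (1 + 2 * v))
      rw [← this]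
      rfl
    have h2 : cw m (fun s => p (val (false :: s))) =
        ((Finset.range (2 ^ m)).filter (fun v => p (0 + 2 * v))).card := by
      have := ih (fun v => p (0 + 2 * v))
      rw [← this]
      rfl
    have h3 : (Finset.range (2 ^ (m + 1))).filter p =
        ((Finset.range (2 ^ m)).filter (fun v => p (1 + 2 * v))).image (fun v => 1 + 2 * v) ∪
        ((Finset.range (2 ^ m)).filter (fun v => p (0 + 2 * v))).image (fun v => 0 + 2 * v) := by
      ext v
      simp only [Finset.mem_filter, Finset.mem_range, Finset.mem_union, Finset.mem_image, pow_succ]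
      constructor
      · rintro ⟨hv, hp⟩
        rcases Nat.even_or_odd' v with ⟨k, hk | hk⟩
        · right
          refine ⟨k, ⟨by omega, ?_⟩, by omega⟩
          rw [zero_add, ← hk]; exact hp
        · left
          refine ⟨k, ⟨by omega, ?_⟩, by omega⟩
          rw [add_comm 1, ← hk]; exact hp
      · rintro (⟨k, ⟨hk, hp⟩, rfl⟩ | ⟨k, ⟨hk, hp⟩, rfl⟩)
        · exact ⟨by omega, hp⟩
        · exact ⟨by omega, hp⟩
    rw [h1, h2, h3, Finset.card_union_of_disjoint, Finset.card_image_of_injective,
      Finset.card_image_of_injective]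
    · intro a b h
      simp only at h
      omega
    · intro a b h
      simp only at h
      omega
    · rw [Finset.disjoint_left]
      intro v hv hv'
      simp only [Finset.mem_image] at hv hv'
      obtain ⟨a, -, ha⟩ := hv
      obtain ⟨b, -, hb⟩ := hv'
      omega

/-- C5b (S). From C5a; the filter is `Finset.range (min (2 ^ m) (2 ^ m + 1 - C))`. -/
theorem cw_val_le (m C : ℕ) :
    cw m (fun s => val s + C ≤ 2 ^ m) = min (2 ^ m) (2 ^ m + 1 - C) := by
  rw [cw_val m (fun v => v + C ≤ 2 ^ m)]
  have h : (Finset.range (2 ^ m)).filter (fun v => v + C ≤ 2 ^ m) =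
      Finset.range (min (2 ^ m) (2 ^ m + 1 - C)) := by
    ext v
    simp only [Finset.mem_filter, Finset.mem_range]
    generalize 2 ^ m = N
    omega
  rw [h, Finset.card_range]

end Pool.Agent.Lib.H10R
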