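import Pool.Agent.Lib.H10R.Base

/-!
# D1: reading an instance

Chunk D1 of H10R. Copy the corresponding proofs of Pool/Agent/Lib/H48MaxScatter/Decode.lean.
-/

set_option autoImplicit false

namespace Pool.Agent.Lib.H10R

open Pool.Agent.PolyTime Pool.Agent.Lib.CookLevin
open Pool.Agent.Lib.H48MaxScatter (encNat encInt parseNat)

private lemma d1_parseI (x : RI) (r : Word) : parseI (encRI x ++ r) = (x, r) := by
  obtain ⟨s, a⟩ := x
  have h1 : encRI (s, a) ++ r = s :: (encNat a ++ r) := by simp [encRI]
  rw [parseI, h1]
  simp only [List.tail_cons, H48MaxScatter.parseNat_encNat, List.headD_cons]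

private lemma d1_parseP (x : RI × RI) (r : Word) :
    parseP (encRI x.1 ++ (encRI x.2 ++ r)) = (x, r) := by
  obtain ⟨a, b⟩ := x
  rw [parseP]
  simp only [d1_parseI]

private lemma d1_rstep_false (A : List (RI × RI)) (r : Word) :
    rstep (A, false :: r) = (A, false :: r) := rfl

private lemma d1_rstep_false_iter (A : List (RI × RI)) (r : Word) (n : ℕ) :
    rstep^[n] (A, false :: r) = (A, false :: r) := by
  induction n with
  | zero => rfl
  | succ n ih => rw [Function.iterate_succ_apply, d1_rstep_false, ih]

private lemma d1_rstep_iter (P : List (RI × RI)) (r : Word) : ∀ A : List (RI × RI),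
    rstep^[P.length] (A, (P.flatMap fun p => true :: (encRI p.1 ++ encRI p.2)) ++ false :: r) =
      (P.reverse ++ A, false :: r) := by
  induction P with
  | nil => intro A; rfl
  | cons p P ih =>
    intro A
    rw [List.length_cons, Function.iterate_succ_apply]
    have h1 : rstep (A, ((p :: P).flatMap fun p => true :: (encRI p.1 ++ encRI p.2)) ++
        false :: r) =
        (p :: A, (P.flatMap fun p => true :: (encRI p.1 ++ encRI p.2)) ++ false :: r) := by
      simp only [List.flatMap_cons, List.cons_append, rstep, List.headD_cons, cond_true,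
        List.tail_cons, List.append_assoc, d1_parseP]
    rw [h1, ih]
    simp

private lemma d1_length_le (P : List (RI × RI)) :
    P.length ≤ (P.flatMap fun p => true :: (encRI p.1 ++ encRI p.2)).length := by
  induction P with
  | nil => simp
  | cons p P ih =>
    simp only [List.flatMap_cons, List.length_append, List.length_cons]
    omega

private lemma d1_readPairs (l : List (RI × RI)) (K : ℕ) :
    readPairs (encRaw l K) = (l.reverse, false :: encNat K) := by
  unfold readPairs
  obtain ⟨n, hn⟩ : ∃ n, (encRaw l K).length = n + l.length := by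
    refine ⟨(encRaw l K).length - l.length, ?_⟩
    have := d1_length_le l
    have h2 : (l.flatMap fun p => true :: (encRI p.1 ++ encRI p.2)).length ≤
        (encRaw l K).length := by
      rw [encRaw, List.length_append]; omega
    omega
  rw [hn, Function.iterate_add_apply, encRaw, d1_rstep_iter, d1_rstep_false_iter]
  simp

/-- D1a (S). As `parsePts_encRI`: `parseI (encRI x ++ r) = (x, r)`, `parseP` likewise, `rstep` iterated. -/
theorem readInst_encRaw (l : List (RI × RI)) (K : ℕ) : readInst (encRaw l K) = (l, K) := by
  rw [readInst, d1_readPairs]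
  have h : parseNat (encNat K) = (K, []) := by
    have := H48MaxScatter.parseNat_encNat K []
    rwa [List.append_nil] at this
  simp only [List.reverse_reverse, List.tail_cons, h]

private lemma d1_PT_parseI : PT parseI := by
  have h1 : PT fun w : Word => parseNat w.tail := H48MaxScatter.PT_parseNat.comp (by fun_prop)
  exact PT.pair (PT.pair (PT.headD PT.id (by fun_prop)) h1.fst) h1.snd

private lemma d1_PT_parseP : PT parseP := by
  have h2 : PT fun w : Word => parseI (parseI w).2 := d1_PT_parseI.comp d1_PT_parseI.snd
  exact PT.pair (PT.pair d1_PT_parseI.fst h2.fst) h2.snd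

private lemma d1_PT_rstep : PT rstep := by
  have h1 : PT fun s : List (RI × RI) × Word => parseP s.2.tail := d1_PT_parseP.comp (by fun_prop)
  exact PT.bif (PT.headD PT.snd' (by fun_prop)) (PT.pair (PT.cons h1.fst PT.fst') h1.snd) PT.id

private lemma d1_sz_parseI (w : Word) : sz (parseI w).2 ≤ sz w := by
  refine (H48MaxScatter.sz_parseNat_le _).trans ?_
  rw [← List.drop_one]
  exact sz_drop_le _ _

private lemma d1_sz_parseP (w : Word) : sz (parseP w).2 ≤ sz w :=
  (d1_sz_parseI _).trans (d1_sz_parseI _)

private lemma d1_PT_readPairs : PT readPairs := by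
  obtain ⟨c, k, hck⟩ := d1_PT_parseP.bdd
  refine PT.iterate_length (f := rstep) (s := fun w : Word => (([] : List (RI × RI)), w))
    (l := fun w : Word => w) d1_PT_rstep (by fun_prop) PT.id
    (B := fun w => (sz w * (c * sz w ^ k + 1) + 1) + sz w + 1)
    (((((PBd.sz.mul (((PBd.const c).mul (PBd.sz.pow k)).add (PBd.const 1))).add
      (PBd.const 1))).add PBd.sz).add (PBd.const 1)) ?_
  intro w i hi
  have key : ∀ i : ℕ, sz (rstep^[i] (([] : List (RI × RI)), w)).2 ≤ sz w ∧
      sz (rstep^[i] (([] : List (RI × RI)), w)).1 ≤ i * (c * sz w ^ k + 1) + 1 := by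
    intro i
    induction i with
    | zero => exact ⟨le_rfl, by simp⟩
    | succ i ih =>
      rw [Function.iterate_succ_apply']
      set s := rstep^[i] (([] : List (RI × RI)), w) with hs
      obtain ⟨h1, h2⟩ := ih
      unfold rstep
      cases h3 : s.2.headD false with
      | false =>
        simp only [cond_false]
        refine ⟨h1, h2.trans ?_⟩
        nlinarith [Nat.zero_le (c * sz w ^ k)]
      | true =>
        simp only [cond_true]
        have h4 : sz s.2.tail ≤ sz w := by
          rw [← List.drop_one]
          exact (sz_drop_le _ _).trans h1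
        refine ⟨(d1_sz_parseP _).trans h4, ?_⟩
        rw [sz_cons]
        have h5 : sz (parseP s.2.tail).1 ≤ c * sz w ^ k := by
          have h6 : sz (parseP s.2.tail) ≤ c * sz s.2.tail ^ k := hck s.2.tail
          rw [sz_prod] at h6
          have h7 : c * sz s.2.tail ^ k ≤ c * sz w ^ k := by gcongr
          omega
        calc sz (parseP s.2.tail).1 + sz s.1 + 1
            ≤ c * sz w ^ k + (i * (c * sz w ^ k + 1) + 1) + 1 := by omega
          _ = (i + 1) * (c * sz w ^ k + 1) + 1 := by ring
  obtain ⟨h1, h2⟩ := key i
  have h3 : i ≤ sz w := hi.trans (length_lt_sz w).le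
  have h4 : i * (c * sz w ^ k + 1) ≤ sz w * (c * sz w ^ k + 1) := Nat.mul_le_mul_right _ h3
  rw [sz_prod]
  omega

/-- D1b (S). As `PT_parsePts`. -/
theorem PT_readInst : PT readInst := by
  have h1 : PT fun w : Word => (readPairs w).2.tail := by
    have := d1_PT_readPairs.snd
    exact PT.tail this
  have h2 : PT fun w : Word => parseNat (readPairs w).2.tail :=
    H48MaxScatter.PT_parseNat.comp h1
  exact PT.pair (PT.reverse d1_PT_readPairs.fst) h2.fst

private lemma d1_PT_encRI : PT encRI :=
  PT.cons PT.fst' (H48MaxScatter.PT_encNat.comp (by fun_prop))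

private lemma d1_PT_encRaw : PT fun p : List (RI × RI) × ℕ => encRaw p.1 p.2 := by
  refine PT.append (PT.flatMap (f := fun (_ : List (RI × RI) × ℕ) (p : RI × RI) =>
    true :: (encRI p.1 ++ encRI p.2)) ?_ (by fun_prop))
    (PT.cons (by fun_prop) (H48MaxScatter.PT_encNat.comp PT.snd'))
  exact PT.cons (by fun_prop) (PT.append (d1_PT_encRI.comp (by fun_prop))
    (d1_PT_encRI.comp (by fun_prop)))

private lemma d1_PT_okI : PT okI :=
  PT.not (PT.and PT.fst' (PT.decide_eq (by fun_prop) (by fun_prop)))

/-- D1c (S). -/
theorem PT_validB : PT validB := by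
  refine PT.and (PT.decide_eq ?_ PT.id) ?_
  · exact d1_PT_encRaw.comp PT_readInst
  · exact PT.all (f := fun (_ : Word) (p : RI × RI) => okI p.1 && okI p.2)
      (PT.and (d1_PT_okI.comp (by fun_prop)) (d1_PT_okI.comp (by fun_prop))) PT_readInst.fst

end Pool.Agent.Lib.H10R
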