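import Pool.Agent.Lib.H10R.D1

/-!
# D2: the valid words

Chunk D2 of H10R.
-/

set_option autoImplicit false

namespace Pool.Agent.Lib.H10R

open Pool.Agent.PolyTime Pool.Agent.Lib.CookLevin
open Pool.Agent.Lib.H48MaxScatter (encNat encInt parseNat)

private lemma d2_encInt (z : ℤ) : encInt z = encRI (rawI z) := rfl

private lemma d2_encInst (l : List (ℤ × ℤ)) (K : ℕ) : encInst l K = encRaw (l.map rawP) K := by
  rw [encInst, encRaw, List.flatMap_map]
  rfl

/-- D2a (S). `encInst l K = encRaw (l.map rawP) K` and `readInst_encRaw`. -/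
theorem readInst_encInst (l : List (ℤ × ℤ)) (K : ℕ) : readInst (encInst l K) = (l.map rawP, K) := by
  rw [d2_encInst, readInst_encRaw]

private lemma d2_okI_rawI (z : ℤ) : okI (rawI z) = true := by
  unfold okI rawI
  simp only [Bool.not_eq_true', Bool.and_eq_false_iff, decide_eq_false_iff_not]
  by_cases h : z < 0
  · right; omega
  · left; exact h

private lemma d2_exists_rawI {x : RI} (h : okI x = true) : ∃ z, rawI z = x := by
  obtain ⟨s, a⟩ := x
  unfold okI at h
  simp only [Bool.not_eq_true', Bool.and_eq_false_iff, decide_eq_false_iff_not] at h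
  cases s with
  | false => exact ⟨(a : ℤ), by simp [rawI]⟩
  | true =>
    have ha : a ≠ 0 := by
      rcases h with h | h
      · exact absurd h (by decide)
      · exact h
    refine ⟨-(a : ℤ), ?_⟩
    simp only [rawI, Int.natAbs_neg, Int.natAbs_natCast, Prod.mk.injEq, and_true,
      decide_eq_true_eq]
    omega

private lemma d2_exists_map {L : List (RI × RI)} (h : ∀ p ∈ L, okI p.1 = true ∧ okI p.2 = true) :
    ∃ l : List (ℤ × ℤ), l.map rawP = L := by
  induction L with
  | nil => exact ⟨[], rfl⟩
  | cons p L ih =>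
    obtain ⟨l, hl⟩ := ih fun p hp => h p (by simp [hp])
    obtain ⟨h1, h2⟩ := h p (by simp)
    obtain ⟨z1, hz1⟩ := d2_exists_rawI h1
    obtain ⟨z2, hz2⟩ := d2_exists_rawI h2
    refine ⟨(z1, z2) :: l, ?_⟩
    rw [List.map_cons, hl]
    show (rawI z1, rawI z2) :: L = p :: L
    rw [hz1, hz2]

/-- D2b (S). `okI x = true` iff `x = rawI z` for some `z` (`z = ± x.2`). -/
theorem validB_iff (w : Word) : validB w = true ↔ ∃ (l : List (ℤ × ℤ)) (K : ℕ), w = encInst l K := by
  constructor
  · intro h
    unfold validB at h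
    simp only [Bool.and_eq_true, decide_eq_true_eq, List.all_eq_true] at h
    obtain ⟨h1, h2⟩ := h
    obtain ⟨l, hl⟩ := d2_exists_map h2
    refine ⟨l, (readInst w).2, ?_⟩
    rw [d2_encInst, hl, h1]
  · rintro ⟨l, K, rfl⟩
    unfold validB
    simp only [readInst_encInst, Bool.and_eq_true, decide_eq_true_eq, List.all_eq_true]
    refine ⟨(d2_encInst l K).symm, ?_⟩
    intro p hp
    obtain ⟨q, _, rfl⟩ := List.mem_map.1 hp
    exact ⟨d2_okI_rawI _, d2_okI_rawI _⟩

private def d2_toInt (x : RI) : ℤ := if x.1 = true then -(x.2 : ℤ) else (x.2 : ℤ)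

private lemma d2_toInt_rawI (z : ℤ) : d2_toInt (rawI z) = z := by
  unfold d2_toInt rawI
  simp only [decide_eq_true_eq]
  split_ifs with h <;> omega

private lemma d2_rawP_inj : Function.Injective rawP := fun a b h => by
  have h1 := congrArg (fun p => d2_toInt p.1) h
  have h2 := congrArg (fun p => d2_toInt p.2) h
  simp only [rawP, d2_toInt_rawI] at h1 h2
  exact Prod.ext h1 h2

/-- D2c (S). From D2a and the injectivity of `rawP`. -/
theorem encInst_inj {l l' : List (ℤ × ℤ)} {K K' : ℕ} (h : encInst l K = encInst l' K') :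
    l = l' ∧ K = K' := by
  have h1 := congrArg readInst h
  rw [readInst_encInst, readInst_encInst] at h1
  exact ⟨List.map_injective_iff.2 d2_rawP_inj (Prod.mk.inj h1).1, (Prod.mk.inj h1).2⟩

/-- D2d (S). -/
theorem rtmp_encInst (l : List (ℤ × ℤ)) (K : ℕ) : RTMP (encInst l K) ↔ K ≤ numSets l := by
  constructor
  · rintro ⟨l', K', h, h'⟩
    obtain ⟨rfl, rfl⟩ := encInst_inj h
    exact h'
  · intro h
    exact ⟨l, K, rfl, h⟩

/-- D2e (S). Cases on the signs. -/
theorem rdist_rawP (p : ℤ × ℤ) : rdist (rawP p) = (p.1 - p.2).natAbs := by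
  obtain ⟨a, b⟩ := p
  by_cases ha : a < 0 <;> by_cases hb : b < 0 <;> simp [rdist, rawP, rawI, ha, hb] <;> omega

/-- D2f (S). Cases on the signs. -/
theorem rpos_rawP (p : ℤ × ℤ) : ((rpos (rawP p) : ℕ) : ℤ) = if p.2 < p.1 then p.1 - p.2 else 0 := by
  obtain ⟨a, b⟩ := p
  by_cases ha : a < 0 <;> by_cases hb : b < 0 <;> simp only [rpos, rawP, rawI, ha, hb, decide_true,
    decide_false, cond_true, cond_false] <;> split_ifs <;> omega

/-- D2g (S). Induction on `l` (`Fin.sum_univ_succ`) with D2f. -/
theorem sum_rpos (l : List (ℤ × ℤ)) : ((((l.map rawP).map rpos).sum : ℕ) : ℤ) = posSum l := by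
  induction l with
  | nil => simp [posSum]
  | cons p l ih =>
    have h1 : posSum (p :: l) = (if p.2 < p.1 then p.1 - p.2 else 0) + posSum l := by
      unfold posSum
      exact Fin.sum_univ_succ _
    rw [h1, ← ih, List.map_cons, List.map_cons, List.sum_cons, Nat.cast_add, rpos_rawP]

/-- D2h (S). Every pair takes at least one letter. -/
theorem length_le_encInst (l : List (ℤ × ℤ)) (K : ℕ) : l.length ≤ (encInst l K).length := by
  have h : l.length ≤ (l.flatMap fun p => true :: (encInt p.1 ++ encInt p.2)).length := by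
    induction l with
    | nil => simp
    | cons p l ih =>
      simp only [List.flatMap_cons, List.length_append, List.length_cons] at ih ⊢
      omega
  rw [encInst, List.length_append]
  omega

end Pool.Agent.Lib.H10R
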