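import Pool.Agent.Lib.H48MaxScatter.Problem

/-!
# The class PP and the matched-pairs randomization test problem

* `InPP L`: there is a polynomial `q` and a relation `R`, decidable in polynomial time, such that `x` belongs
  to `L` iff more than half of the words `y` of length `q (|x|)` satisfy `R x y`.
* `RTMP`: the decision problem of the matched-pairs randomization test, as a set of words.

`InNP`, `PolyReduces` and `Word` are those of `Pool.Agent.Lib.CookLevin.Defs`; `encInt` and `encNat` (signed
and unsigned binary) are those of `Pool.Agent.Lib.H48MaxScatter.Problem`.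
-/

set_option autoImplicit false

namespace Pool.Agent.Lib.H10R

open Turing Pool.Agent.Lib.CookLevin Pool.Agent.Lib.H48MaxScatter

/-- the class PP: more than half of the words `y` of length `q (|x|)` satisfy `R x y` -/
def InPP (L : Word → Prop) : Prop :=
  ∃ (q : Polynomial ℕ) (R : Word × Word → Bool),
    Nonempty (TM2ComputableInPolyTime pairEnc Computability.encodeBool R) ∧
    ∀ x, L x ↔ 2 ^ q.eval x.length <
      2 * Nat.card {y : Word // y.length = q.eval x.length ∧ R (x, y) = true}

/-- every language in PP reduces to `L'` by a polynomial-time many-one reduction -/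
def PPHard (L' : Word → Prop) : Prop := ∀ L : Word → Prop, InPP L → PolyReduces L L'

/-- `L'` is in PP and PP-hard -/
def PPComplete (L' : Word → Prop) : Prop := InPP L' ∧ PPHard L'

/-- the sum `T` of the differences `x i - y i` over the indices `i` with `x i > y i` -/
def posSum (l : List (ℤ × ℤ)) : ℤ :=
  ∑ i : Fin l.length, if (l.get i).2 < (l.get i).1 then (l.get i).1 - (l.get i).2 else 0

/-- the number `N` of the sets `S` of indices with `∑ i ∈ S, |x i - y i| ≤ T` -/
def numSets (l : List (ℤ × ℤ)) : ℕ :=
  (Finset.univ.filter fun S : Finset (Fin l.length) =>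
    ∑ i ∈ S, |(l.get i).1 - (l.get i).2| ≤ posSum l).card

/-- an instance: the pairs, each preceded by `1`, then `0`, then `K`; all integers in binary -/
def encInst (l : List (ℤ × ℤ)) (K : ℕ) : Word :=
  (l.flatMap fun p => true :: (encInt p.1 ++ encInt p.2)) ++ false :: encNat K

/-- the randomization test problem for matched pairs: is `N ≥ K`? -/
def RTMP (w : Word) : Prop := ∃ (l : List (ℤ × ℤ)) (K : ℕ), w = encInst l K ∧ K ≤ numSets l

end Pool.Agent.Lib.H10R
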