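import Pool.Agent.Lib.H10R.C1

/-!
# K1: subset sums on the two sides of a target

Chunk K1 of H10R.
-/

set_option autoImplicit false

namespace Pool.Agent.Lib.H10R

open Pool.Agent.PolyTime Pool.Agent.Lib.CookLevin
open Pool.Agent.Lib.H48MaxScatter (encNat encInt parseNat)

private theorem K1_fc_eq {α : Type*} (f : α → ℕ) (l : List α) (p : ℕ → Prop) [DecidablePred p] :
    fc f l p = (Finset.univ.filter fun S : Finset (Fin l.length) =>
      p (∑ i ∈ S, f (l.get i))).card := by
  unfold fc
  rw [Nat.card_eq_fintype_card, Fintype.card_subtype]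

private theorem K1_sum_univ {α : Type*} (f : α → ℕ) (l : List α) :
    ∑ i, f (l.get i) = (l.map f).sum := by
  have h := List.sum_ofFn (f := fun i => f (l.get i))
  rw [← h]
  congr 1
  have := List.ofFn_get (l.map f)
  conv_rhs => rw [← List.ofFn_get l]
  rw [List.map_ofFn]
  rfl

/-- K1a (S). Inclusion and exclusion; or induction on `l` with `t` general is not needed: use
`fc f l p + fc f l q = fc f l (fun s => p s ∨ q s) + fc f l (fun s => p s ∧ q s)` (cards of filters) and
`fc_true`. -/
theorem fc_le_add_ge {α : Type*} (f : α → ℕ) (l : List α) (t : ℕ) :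
    fc f l (fun s => s ≤ t) + fc f l (fun s => t ≤ s) =
      2 ^ l.length + fc f l (fun s => s = t) := by
  classical
  rw [← fc_true f l, K1_fc_eq, K1_fc_eq, K1_fc_eq, K1_fc_eq]
  rw [← Finset.card_union_add_card_inter]
  congr 1
  · congr 1
    ext S
    simp only [Finset.mem_union, Finset.mem_filter, Finset.mem_univ, true_and]
    have := le_total (∑ i ∈ S, f (l.get i)) t
    tauto
  · congr 1
    ext S
    simp only [Finset.mem_inter, Finset.mem_filter, Finset.mem_univ, true_and]
    exact ⟨fun h => le_antisymm h.1 h.2, fun h => ⟨h.le, h.ge⟩⟩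

/-- K1b (S). The complement `S ↦ Sᶜ` is an involution, and `∑ i ∈ Sᶜ, f (l.get i) =
(l.map f).sum - ∑ i ∈ S, f (l.get i)` (`Finset.sum_compl_add_sum`, `List.sum_ofFn` or
`Fin.sum_univ_get'`). -/
theorem fc_compl {α : Type*} (f : α → ℕ) (l : List α) (t : ℕ) (ht : t ≤ (l.map f).sum) :
    fc f l (fun s => s ≤ (l.map f).sum - t) = fc f l (fun s => t ≤ s) := by
  classical
  have key : ∀ S : Finset (Fin l.length),
      ∑ i ∈ Sᶜ, f (l.get i) + ∑ i ∈ S, f (l.get i) = (l.map f).sum := by
    intro S
    rw [Finset.sum_compl_add_sum, K1_sum_univ]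
  unfold fc
  refine Nat.card_congr ⟨fun S => ⟨S.1ᶜ, ?_⟩, fun S => ⟨S.1ᶜ, ?_⟩, ?_, ?_⟩
  · have h1 := key S.1
    have h2 := S.2
    omega
  · have h1 := key S.1
    have h2 := S.2
    omega
  · intro S
    simp
  · intro S
    simp

/-- K1c (S). Only the empty set: induction with `fc_nil`, `fc_cons`, `fc_false`. -/
theorem fc_zero {α : Type*} (f : α → ℕ) (l : List α) (h : ∀ a ∈ l, 0 < f a) :
    fc f l (fun s => s = 0) = 1 := by
  induction l with
  | nil => rw [fc_nil]; simp
  | cons a l ih =>
    rw [fc_cons, ih (fun b hb => h b (List.mem_cons_of_mem _ hb))]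
    have ha : 0 < f a := h a List.mem_cons_self
    have : (fun s => f a + s = 0) = fun _ => False := by
      funext s
      simp only [eq_iff_iff, iff_false]
      omega
    rw [this, fc_false]

/-- K1d (S). No sum exceeds the total: every sum is at most `(l.map f).sum`. -/
theorem fc_gt {α : Type*} (f : α → ℕ) (l : List α) (t : ℕ) (ht : (l.map f).sum < t) :
    fc f l (fun s => t ≤ s) = 0 := by
  classical
  rw [K1_fc_eq, Finset.card_eq_zero, Finset.filter_eq_empty_iff]
  intro S _ h
  have h1 : ∑ i ∈ Sᶜ, f (l.get i) + ∑ i ∈ S, f (l.get i) = (l.map f).sum := by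
    rw [Finset.sum_compl_add_sum, K1_sum_univ]
  omega

end Pool.Agent.Lib.H10R
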