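import Pool.Agent.Lib.H10R.K1

/-!
# K2: the number of sets of the matched-pairs instance of a subset sum instance

Chunk K2 of H10R.
-/

set_option autoImplicit false

namespace Pool.Agent.Lib.H10R

open Pool.Agent.PolyTime Pool.Agent.Lib.CookLevin
open Pool.Agent.Lib.H48MaxScatter (encNat encInt parseNat)

/-- K2a (S). `|z| = z.natAbs`, `Finset.card` of a filter is `Nat.card` of the subtype, casts. -/
theorem numSets_eq (l : List (ℤ × ℤ)) :
    numSets l = fc (fun p : ℤ × ℤ => (p.1 - p.2).natAbs) l (fun s => (s : ℤ) ≤ posSum l) := by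
  classical
  rw [fc, Nat.card_eq_fintype_card, Fintype.card_subtype, numSets]
  refine congrArg Finset.card (Finset.filter_congr fun S _ => ?_)
  rw [Nat.cast_sum]
  simp only [Int.natCast_natAbs]

/-- K2b (S). Recursion for `posSum`: `Fin.sum_univ_succ`. -/
theorem posSum_cons (p : ℤ × ℤ) (l : List (ℤ × ℤ)) :
    posSum (p :: l) = (if p.2 < p.1 then p.1 - p.2 else 0) + posSum l := by
  rw [posSum, posSum]
  exact Fin.sum_univ_succ (n := l.length) (fun i => if ((p :: l).get i).2 < ((p :: l).get i).1
    then ((p :: l).get i).1 - ((p :: l).get i).2 else 0)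

private lemma k2_kpairs (a : List ℕ) (t : ℕ) :
    kpairs a t = (((kb a.sum t : ℕ) : ℤ), (0 : ℤ)) :: ((0 : ℤ), ((kw a.sum t : ℕ) : ℤ)) ::
      a.map (fun n : ℕ => ((0 : ℤ), (n : ℤ))) := by
  unfold kpairs
  congr 2
  induction a with
  | nil => rfl
  | cons n a ih =>
    simp only [bind_pure_comp, List.map_eq_map, List.map_cons, List.cons.injEq, true_and] at ih ⊢
    exact ih

/-- K2c (S). From K2b: the first pair contributes `kb a.sum t` (also if it is `0`), all the others `0`. -/
theorem posSum_kpairs (a : List ℕ) (t : ℕ) : posSum (kpairs a t) = (kb a.sum t : ℕ) := by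
  have h0 : posSum (a.map fun n : ℕ => ((0 : ℤ), (n : ℤ))) = 0 := by
    induction a with
    | nil => rfl
    | cons n a ih =>
      rw [List.map_cons, posSum_cons, ih, if_neg, add_zero]
      simp
  rw [k2_kpairs, posSum_cons, posSum_cons, h0]
  have hw : ¬ ((kw a.sum t : ℕ) : ℤ) < 0 := by omega
  simp only [sub_zero, add_zero, if_neg hw]
  split_ifs with h
  · rfl
  · have : (0 : ℤ) ≤ (kb a.sum t : ℕ) := Int.natCast_nonneg _
    omega

private lemma k2_congr {α : Type*} (f : α → ℕ) (l : List α) {p q : ℕ → Prop}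
    (h : ∀ s, p s ↔ q s) : fc f l p = fc f l q :=
  congrArg (fc f l) (funext fun s => propext (h s))

/-- K2d (M). Write `A = a.sum`, `w = kw A t`, `b = kb A t`, `n = a.length`, `F p = fc (fun n => n) a p`.
By K2a, K2c, `fc_cons` (twice) and `fc_map` the left hand side is
`F (w + s ≤ 0 ..) + F (s ≤ 0 ..) + F (w + s ≤ b) + F (s ≤ b)`, where the first two terms come from the sets
containing the first pair: `b + (w + s) ≤ b` and `b + s ≤ b`. By `fc_zero` the second one is `1` and the
first one is `1` if `w = 0`, and `0` otherwise (`fc_false`).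
If `t ≤ A ≤ 2 t`: `w = 2 t - A`, `b = t`, so `w + s ≤ b ↔ s ≤ A - t`, and `F (s ≤ A - t) = F (t ≤ s)`
(`fc_compl`); conclude by `fc_le_add_ge`. If `2 t < A`: `w = A - 2 t`, `b = A - t`, so
`w + s ≤ b ↔ s ≤ t` and `F (s ≤ b) = F (t ≤ s)`. If `A < t`: `w = 2 t - A`, `b = t`, `w + s ≤ b` is
impossible, `F (t ≤ s) = 0` (`fc_gt`), so `F (s ≤ t) = 2 ^ n + F (s = t)`. -/
theorem numSets_kpairs (a : List ℕ) (ha : ∀ n ∈ a, 0 < n) (t : ℕ) :
    numSets (kpairs a t) = 2 ^ a.length + fc (fun n => n) a (fun s => s = t) +
      (if kw a.sum t = 0 then 2 else 1) := by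
  classical
  have hf : (fun n : ℕ => (((0 : ℤ), (n : ℤ)).1 - ((0 : ℤ), (n : ℤ)).2).natAbs) = fun n => n := by
    funext n
    simp
  have hF : ∀ p : ℕ → Prop, fc (fun p : ℤ × ℤ => (p.1 - p.2).natAbs)
      (a.map fun n : ℕ => ((0 : ℤ), (n : ℤ))) p = fc (fun n => n) a p := by
    intro p
    rw [fc_map, hf]
  have hsum : (a.map fun n => n).sum = a.sum := by rw [List.map_id']
  rw [numSets_eq, posSum_kpairs, k2_kpairs, fc_cons, fc_cons, fc_cons, hF, hF, hF, hF]
  simp only [sub_zero, zero_sub, Int.natAbs_neg, Int.natAbs_natCast, Nat.cast_le]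
  have hb : kb a.sum t = max t (a.sum - t) := rfl
  have hw : kw a.sum t = (2 * t - a.sum) + (a.sum - 2 * t) := rfl
  generalize kb a.sum t = b at *
  generalize kw a.sum t = w at *
  have hz : fc (fun n => n) a (fun s => s = 0) = 1 := fc_zero _ _ ha
  have h1 : fc (fun n => n) a (fun s => b + (w + s) ≤ b) = if w = 0 then 1 else 0 := by
    split_ifs with h
    · rw [← hz]
      exact k2_congr _ _ fun s => by omega
    · rw [← fc_false (fun n => n) a]
      exact k2_congr _ _ fun s => ⟨fun h => by omega, fun h => h.elim⟩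
  have h2 : fc (fun n => n) a (fun s => b + s ≤ b) = 1 := by
    rw [← hz]
    exact k2_congr _ _ fun s => by omega
  have hle := fc_le_add_ge (fun n => n) a t
  have h3 : fc (fun n => n) a (fun s => w + s ≤ b) + fc (fun n => n) a (fun s => s ≤ b) =
      2 ^ a.length + fc (fun n => n) a (fun s => s = t) := by
    rcases Nat.lt_or_ge a.sum t with hA | hA
    · have hb' : b = t := by
        rw [hb]
        exact max_eq_left (by omega)
      have e1 : fc (fun n => n) a (fun s => w + s ≤ b) = 0 := by
        rw [← fc_false (fun n => n) a]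
        exact k2_congr _ _ fun s => ⟨fun h => by omega, fun h => h.elim⟩
      have e2 : fc (fun n => n) a (fun s => t ≤ s) = 0 := fc_gt _ _ _ (by rw [hsum]; exact hA)
      have e3 : fc (fun n => n) a (fun s => s ≤ b) = fc (fun n => n) a (fun s => s ≤ t) :=
        k2_congr _ _ fun s => by omega
      rw [e1, e3]
      omega
    · have hc := fc_compl (fun n => n) a t (by rw [hsum]; exact hA)
      rw [hsum] at hc
      rcases Nat.lt_or_ge (2 * t) a.sum with h2t | h2t
      · have hb' : b = a.sum - t := by
          rw [hb]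
          exact max_eq_right (by omega)
        have e1 : fc (fun n => n) a (fun s => w + s ≤ b) = fc (fun n => n) a (fun s => s ≤ t) :=
          k2_congr _ _ fun s => by omega
        have e2 : fc (fun n => n) a (fun s => s ≤ b) =
            fc (fun n => n) a (fun s => s ≤ a.sum - t) :=
          k2_congr _ _ fun s => by omega
        rw [e1, e2, hc]
        exact hle
      · have hb' : b = t := by
          rw [hb]
          exact max_eq_left (by omega)
        have e1 : fc (fun n => n) a (fun s => w + s ≤ b) =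
            fc (fun n => n) a (fun s => s ≤ a.sum - t) :=
          k2_congr _ _ fun s => by omega
        have e2 : fc (fun n => n) a (fun s => s ≤ b) = fc (fun n => n) a (fun s => s ≤ t) :=
          k2_congr _ _ fun s => by omega
        rw [e1, e2, hc]
        omega
  rw [h1, h2]
  split_ifs with h
  · omega
  · omega

end Pool.Agent.Lib.H10R
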