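import Pool.Agent.Lib.H10R.Base
import Pool.Agent.Lib.PolyTime.F2

/-!
# N1: certificates for the satisfiability of CNF formulas

Chunk N1 of H10R. `CNFSat F` is `∃ v : ℕ → Bool, ∀ cl ∈ F, ∃ l ∈ cl, v l.1 = l.2`
(Pool/Agent/Lib/CookLevin/ThreeCol.lean).
-/

set_option autoImplicit false

namespace Pool.Agent.Lib.H10R

open Pool.Agent.PolyTime Pool.Agent.Lib.CookLevin
open Pool.Agent.Lib.H48MaxScatter (encNat encInt parseNat)

/-- the variables which are made true by `s` -/
private theorem zip_map_append (v : ℕ → Bool) (r : List Bool) : ∀ l : List ℕ,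
    l.zip (l.map v ++ r) = l.map fun n => (n, v n)
  | [] => rfl
  | n :: l => by
    rw [List.map_cons, List.map_cons, List.cons_append, List.zip_cons_cons, zip_map_append v r l]

/-- N1a (S). -/
theorem cnfSat_of_chk {F : List (List (ℕ × Bool))} {s : Word} (h : chk F s = true) : CNFSat F := by
  refine ⟨fun n => decide (n ∈ (((occ F).zip s).filter fun q => q.2).map Prod.fst), ?_⟩
  intro cl hcl
  have h1 := (List.all_eq_true.1 h) cl hcl
  obtain ⟨l, hl, h2⟩ := List.any_eq_true.1 h1
  exact ⟨l, hl, of_decide_eq_true h2⟩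

/-- N1b (S). `s = (occ F).map v ++ List.replicate (m - (occ F).length) false`: a variable `n` of `F` is in
the list of the marked variables iff `v n = true` (`List.zip` truncates). -/
theorem exists_chk_of_cnfSat {F : List (List (ℕ × Bool))} (h : CNFSat F) {m : ℕ}
    (hm : (occ F).length ≤ m) : ∃ s : Word, s.length = m ∧ chk F s = true := by
  obtain ⟨v, hv⟩ := h
  refine ⟨(occ F).map v ++ List.replicate (m - (occ F).length) false, ?_, ?_⟩
  · rw [List.length_append, List.length_map, List.length_replicate]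
    omega
  · have hz := zip_map_append v (List.replicate (m - (occ F).length) false) (occ F)
    unfold chk
    rw [hz]
    refine List.all_eq_true.2 fun cl hcl => ?_
    obtain ⟨l, hl, h2⟩ := hv cl hcl
    refine List.any_eq_true.2 ⟨l, hl, decide_eq_true ?_⟩
    have hocc : l.1 ∈ occ F := by
      unfold occ
      exact List.mem_map.2 ⟨l, List.mem_flatten.2 ⟨cl, hcl, hl⟩, rfl⟩
    have hmem : l.1 ∈ (((occ F).map fun n => (n, v n)).filter fun q => q.2).map Prod.fst ↔
        v l.1 = true := by
      constructor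
      · intro h3
        obtain ⟨q, hq, hq1⟩ := List.mem_map.1 h3
        obtain ⟨hq2, hq3⟩ := List.mem_filter.1 hq
        obtain ⟨n, -, hn⟩ := List.mem_map.1 hq2
        rw [← hn] at hq1 hq3
        have hq4 : n = l.1 := hq1
        have hq5 : v n = true := hq3
        rw [← hq4]
        exact hq5
      · intro h3
        exact List.mem_map.2 ⟨(l.1, v l.1), List.mem_filter.2
          ⟨List.mem_map.2 ⟨l.1, hocc, rfl⟩, h3⟩, rfl⟩
    rw [← h2]
    by_cases h4 : v l.1 = true
    · rw [h4]
      exact decide_eq_true (hmem.2 h4)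
    · have h5 : v l.1 = false := Bool.eq_false_iff.2 h4
      rw [h5]
      exact decide_eq_false fun h6 => h4 (hmem.1 h6)

/-- N1c (S). `PT.bdd` for `fun x => occ (f x)`, `length_lt_sz`, `sz_boolList_le` (PolyTime/Final.lean);
`q = C c * (4 * X + 1) ^ k`. -/
theorem exists_occ_bound {f : Word → List (List (ℕ × Bool))} (hf : PT f) :
    ∃ q : Polynomial ℕ, ∀ x : Word, (occ (f x)).length ≤ q.eval x.length := by
  have hocc : PT fun x => occ (f x) :=
    PT.map (f := fun (_ : Word) (p : ℕ × Bool) => p.1) (by fun_prop) (PT.flatten hf)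
  obtain ⟨c, k, h⟩ := PT.bdd hocc
  refine ⟨Polynomial.C c * (4 * Polynomial.X + 1) ^ k, fun x => ?_⟩
  have h1 := length_lt_sz (occ (f x))
  have h2 := h x
  have h3 : sz x ≤ 4 * x.length + 1 := sz_boolList_le x
  have h4 : c * sz x ^ k ≤ c * (4 * x.length + 1) ^ k :=
    Nat.mul_le_mul_left c (Nat.pow_le_pow_left h3 k)
  simp only [Polynomial.eval_mul, Polynomial.eval_C, Polynomial.eval_pow, Polynomial.eval_add,
    Polynomial.eval_X, Polynomial.eval_one, Polynomial.eval_ofNat]
  exact (h1.le.trans h2).trans h4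

/-- N1d (S). `PT.all`, `PT.any`, `PT.mem`, `PT.filter`, `PT.zip` (F2.lean; import
Pool.Agent.Lib.PolyTime.F2 if needed), `PT.flatten`. -/
theorem PT_chk {α : Type*} [Enc α] {F : α → List (List (ℕ × Bool))} {s : α → Word} (hF : PT F)
    (hs : PT s) : PT fun a => chk (F a) (s a) := by
  have hocc : PT fun a => occ (F a) :=
    PT.map (f := fun (_ : α) (p : ℕ × Bool) => p.1) (by fun_prop) (PT.flatten hF)
  have hV : PT fun a => (((occ (F a)).zip (s a)).filter fun q => q.2).map Prod.fst := by
    refine PT.map (f := fun (_ : α) (p : ℕ × Bool) => p.1) (by fun_prop) ?_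
    exact PT.filter (f := fun (_ : α) (p : ℕ × Bool) => p.2) (by fun_prop) (PT.zip hocc hs)
  have hmem : PT fun p : (α × List (ℕ × Bool)) × (ℕ × Bool) =>
      decide (decide (p.2.1 ∈ (((occ (F p.1.1)).zip (s p.1.1)).filter fun q => q.2).map Prod.fst) =
        p.2.2) := by
    refine PT.decide_eq (PT.mem (by fun_prop) ?_) (by fun_prop)
    exact hV.comp (f := fun p : (α × List (ℕ × Bool)) × (ℕ × Bool) => p.1.1) (by fun_prop)
  have hany : PT fun p : α × List (ℕ × Bool) => p.2.any fun l =>
      decide (decide (l.1 ∈ (((occ (F p.1)).zip (s p.1)).filter fun q => q.2).map Prod.fst) =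
        l.2) :=
    PT.any (f := fun (p : α × List (ℕ × Bool)) (l : ℕ × Bool) =>
      decide (decide (l.1 ∈ (((occ (F p.1)).zip (s p.1)).filter fun q => q.2).map Prod.fst) =
        l.2)) hmem (by fun_prop)
  exact PT.all (f := fun (a : α) (cl : List (ℕ × Bool)) => cl.any fun l =>
      decide (decide (l.1 ∈ (((occ (F a)).zip (s a)).filter fun q => q.2).map Prod.fst) = l.2))
    hany hF

end Pool.Agent.Lib.H10R
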