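import Pool.Agent.Lib.H10R.C3
import Pool.Agent.Lib.H10R.N1

/-!
# N2: languages which reduce to CNF-SAT are in NP and in PP

Chunk N2 of H10R.
-/

set_option autoImplicit false

namespace Pool.Agent.Lib.H10R

open Pool.Agent.PolyTime Pool.Agent.Lib.CookLevin
open Pool.Agent.Lib.H48MaxScatter (encNat encInt parseNat)

/-- N2a (S). `R (x, y) = chk (f x) y`, `PT.tmPair`, N1. -/
theorem inNP_of_cnf {L : Word → Prop} (f : Word → List (List (ℕ × Bool))) (hf : PT f)
    (h : ∀ x, L x ↔ CNFSat (f x)) : InNP L := by
  obtain ⟨q, hq⟩ := exists_occ_bound hf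
  have hR : PT fun p : Word × Word => chk (f p.1) p.2 :=
    PT_chk (hf.comp (f := fun p : Word × Word => p.1) (by fun_prop)) (by fun_prop)
  refine ⟨q, fun p => chk (f p.1) p.2, PT.tmPair hR, fun x => ?_⟩
  constructor
  · intro hx
    obtain ⟨s, hs, hc⟩ := exists_chk_of_cnfSat ((h x).1 hx) (hq x)
    exact ⟨s, hs.le, hc⟩
  · rintro ⟨s, -, hc⟩
    exact (h x).2 (cnfSat_of_chk hc)

/-- N2b (M). The certificates are `b :: s` with `|s| = q (|x|)`, accepted iff `b = true` or `chk (f x) s`:
`R (x, y) = y.headD false || chk (f x) y.tail`, polynomial `q + 1`. By `cw_succ` and `cw_true` the number of the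
accepted words is `2 ^ q + cw q (chk (f x) ·)`, and the second term is positive (`cw_pos_iff`) iff `f x` is
satisfiable. -/
theorem inPP_of_cnf {L : Word → Prop} (f : Word → List (List (ℕ × Bool))) (hf : PT f)
    (h : ∀ x, L x ↔ CNFSat (f x)) : InPP L := by
  obtain ⟨q, hq⟩ := exists_occ_bound hf
  have hc : PT fun p : Word × Word => chk (f p.1) p.2.tail :=
    PT_chk (hf.comp (f := fun p : Word × Word => p.1) (by fun_prop)) (PT.tail (by fun_prop))
  have hh : PT fun p : Word × Word => p.2.headD false := PT.headD (by fun_prop) (PT.const _)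
  have hR : PT fun p : Word × Word => p.2.headD false || chk (f p.1) p.2.tail := PT.or hh hc
  refine ⟨q + 1, fun p => p.2.headD false || chk (f p.1) p.2.tail, PT.tmPair hR, fun x => ?_⟩
  have hev : (q + 1).eval x.length = q.eval x.length + 1 := by
    rw [Polynomial.eval_add, Polynomial.eval_one]
  rw [hev]
  have h1 : Nat.card {y : Word // y.length = q.eval x.length + 1 ∧
      (y.headD false || chk (f x) y.tail) = true} =
      cw (q.eval x.length + 1) (fun y => (y.headD false || chk (f x) y.tail) = true) := rfl
  have h2 : cw (q.eval x.length)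
      (fun s => ((true :: s).headD false || chk (f x) (true :: s).tail) = true) =
      2 ^ q.eval x.length := by
    rw [← cw_true]
    refine cw_congr _ fun y _ => ?_
    rw [List.headD_cons, Bool.true_or]
    exact ⟨fun _ => trivial, fun _ => rfl⟩
  have h3 : cw (q.eval x.length)
      (fun s => ((false :: s).headD false || chk (f x) (false :: s).tail) = true) =
      cw (q.eval x.length) (fun s => chk (f x) s = true) := by
    refine cw_congr _ fun y _ => ?_
    rw [List.headD_cons, Bool.false_or, List.tail_cons]
  show L x ↔ 2 ^ (q.eval x.length + 1) < 2 * Nat.card {y : Word // y.length =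
    q.eval x.length + 1 ∧ (y.headD false || chk (f x) y.tail) = true}
  rw [h1, cw_succ, h2, h3, pow_succ]
  have h4 := cw_pos_iff (q.eval x.length) (fun s => chk (f x) s = true)
  constructor
  · intro hx
    have h5 := h4.2 (exists_chk_of_cnfSat ((h x).1 hx) (hq x))
    omega
  · intro hlt
    obtain ⟨s, -, hs⟩ := h4.1 (by omega)
    exact (h x).2 (cnfSat_of_chk hs)

end Pool.Agent.Lib.H10R
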