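import Pool.Agent.Lib.H10R.Base

/-!
# X1: the list of options has no repetitions

Chunk X1 of H10R.
-/

set_option autoImplicit false

namespace Pool.Agent.Lib.H10R

open Pool.Agent.PolyTime Pool.Agent.Lib.CookLevin
open Pool.Agent.Lib.H48MaxScatter (encNat encInt parseNat)

/-- a helper: a `flatMap` over a list without repetitions whose pieces are told apart by `g` -/
theorem X1_flatMap {α β : Type*} (g : β → α) (f : α → List β) :
    ∀ l : List α, l.Nodup → (∀ x ∈ l, (f x).Nodup) → (∀ x ∈ l, ∀ y ∈ f x, g y = x) →
      (l.flatMap f).Nodup := by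
  intro l
  induction l with
  | nil => intro _ _ _; simp
  | cons a l ih =>
    intro hl hf hg
    rw [List.flatMap_cons, List.nodup_append']
    have hl2 := List.nodup_cons.1 hl
    refine ⟨hf a (by simp), ih hl2.2 (fun x hx => hf x (List.mem_cons_of_mem _ hx))
      (fun x hx => hg x (List.mem_cons_of_mem _ hx)), ?_⟩
    intro y hy hy'
    obtain ⟨b, hb, hyb⟩ := List.mem_flatMap.1 hy'
    have h1 := hg a (by simp) y hy
    have h2 := hg b (List.mem_cons_of_mem _ hb) y hyb
    have h3 : a = b := h1.symm.trans h2
    exact hl2.1 (h3 ▸ hb)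

/-- X1a (S). Induction on `n` (`List.nodup_flatMap`, `List.Nodup.map`, the heads are different). -/
theorem words_nodup (K n : ℕ) : (words K n).Nodup := by
  induction n with
  | zero => simp [words]
  | succ n ih =>
    unfold words
    refine X1_flatMap (fun w => w.headD 0) _ _ List.nodup_range ?_ ?_
    · intro a _
      exact ih.map (fun w w' h => (List.cons.inj h).2)
    · intro a _ y hy
      obtain ⟨w, _, rfl⟩ := List.mem_map.1 hy
      rfl

/-- X1b (S). `List.nodup_flatMap` and X1a. -/
theorem table_nodup (M : Tab) : M.table.Nodup := by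
  unfold Tab.table
  refine X1_flatMap (fun e => e.1) _ _ List.nodup_range ?_ ?_
  · intro m _
    exact (words_nodup _ _).map (fun w w' h => congrArg (fun e => e.2.1) h)
  · intro m _ y hy
    obtain ⟨w, _, rfl⟩ := List.mem_map.1 hy
    rfl

theorem X1_init {β : Type*} (M : Tab) (x : Word) (P : List β) (i : ℕ) :
    (initOpts M x P i).Nodup := by
  have key : ∀ (L : List (List (ℕ × List ℕ × ℕ))) (i : ℕ) (d : List (ℕ × List ℕ × ℕ)),
      (∀ l ∈ L, l.Nodup) → d.Nodup → (L.getD i d).Nodup := by
    intro L
    induction L with
    | nil => intro i d _ hd; simpa using hd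
    | cons a L ih =>
      intro i d hL hd
      cases i with
      | zero => simpa using hL a (by simp)
      | succ i =>
        rw [List.getD_cons_succ]
        exact ih i d (fun l hl => hL l (List.mem_cons_of_mem _ hl)) hd
  unfold initOpts
  apply key
  · intro l hl
    rcases List.mem_append.1 hl with h | h
    · obtain ⟨b, _, rfl⟩ := List.mem_map.1 h
      simp
    · rcases List.mem_cons.1 h with rfl | h
      · simp
      · obtain ⟨b, _, rfl⟩ := List.mem_map.1 h
        simp
  · simp

theorem X1_step (M : Tab) (T t i : ℕ) : (stepOpts M T t i).Nodup := by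
  unfold stepOpts
  apply List.Nodup.filter
  cases h : (decide (t = T) && decide (i = 0))
  · simpa using table_nodup M
  · simp only [cond_true]
    unfold accTable
    exact (table_nodup M).filter _

theorem X1_opts {β γ : Type*} (M : Tab) (x : Word) (P : List β) (Q : List γ) (t i : ℕ) :
    (opts M x P Q t i).Nodup := by
  unfold opts
  cases h : decide (t = 0)
  · simpa using X1_step M _ _ _
  · simpa using X1_init M _ _ _

/-- X1c (M). `List.nodup_flatMap` twice (the first resp. second components are different);
`opts` has no repetitions: `initOpts` is `getD` of a list of lists with one or two elements (the default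
has one element), `stepOpts` is a filter of `M.table` resp. `accTable M`. -/
theorem allOpts_nodup {β γ : Type*} (M : Tab) (x : Word) (P : List β) (Q : List γ) :
    (allOpts M x P Q).Nodup := by
  unfold allOpts
  refine X1_flatMap (fun e => e.1) _ _ List.nodup_range ?_ ?_
  · intro t _
    refine X1_flatMap (fun e => e.2.1) _ _ List.nodup_range ?_ ?_
    · intro i _
      exact (X1_opts M x P Q t i).map (fun w w' h => (Prod.mk.inj (Prod.mk.inj h).2).2)
    · intro i _ y hy
      obtain ⟨w, _, rfl⟩ := List.mem_map.1 hy
      rfl
  · intro t _ y hy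
    obtain ⟨i, _, hy⟩ := List.mem_flatMap.1 hy
    obtain ⟨w, _, rfl⟩ := List.mem_map.1 hy
    rfl

end Pool.Agent.Lib.H10R
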