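import Pool.Agent.Lib.H10R.X2

/-!
# X4: the consistency rows

Chunk X4 of H10R.
-/

set_option autoImplicit false

namespace Pool.Agent.Lib.H10R

open Pool.Agent.PolyTime Pool.Agent.Lib.CookLevin
open Pool.Agent.Lib.H48MaxScatter (encNat encInt parseNat)

private lemma x4_mem_optSet {β γ : Type*} (M : Tab) (x : Word) (P : List β) (Q : List γ)
    (e : ℕ → ℕ → ℕ × List ℕ × ℕ) (v : Opt) :
    v ∈ optSet M x P Q e ↔
      v.1 ≤ Q.length ∧ v.2.1 < (wid M x P Q v.1).length ∧ v = (v.1, v.2.1, e v.1 v.2.1) := by
  rw [optSet, Finset.mem_biUnion]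
  constructor
  · rintro ⟨t, ht, hv⟩
    rw [Finset.mem_image] at hv
    obtain ⟨i, hi, rfl⟩ := hv
    rw [Finset.mem_range] at ht hi
    exact ⟨Nat.lt_succ_iff.1 ht, hi, rfl⟩
  · rintro ⟨h1, h2, h3⟩
    refine ⟨v.1, Finset.mem_range.2 (Nat.lt_succ_of_le h1), ?_⟩
    rw [Finset.mem_image]
    exact ⟨v.2.1, Finset.mem_range.2 h2, h3.symm⟩

private lemma x4_mem_iff (M : Tab) (t i k a : ℕ) (v : Opt) :
    mem M (t + 1, i, k + 1, a) v = true ↔
      (v.1 = t + 1 ∧ v.2.1 = i ∧ v.2.2.2.1.getD k 0 = a) ∨
      (v.1 = t ∧ v.2.1 = (M.pos i).getD k 0 ∧ v.2.2.2.2 ≠ a) := by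
  simp only [mem, Nat.succ_ne_zero, decide_false, cond_false, Nat.add_sub_cancel,
    Bool.or_eq_true, Bool.and_eq_true, decide_eq_true_eq, Bool.not_eq_true', decide_eq_false_iff_not,
    Nat.add_right_cancel_iff, and_assoc, ne_eq]

/-- X4a (M). With `j = (M.pos i).getD k 0 < (wid M x P Q t).length` (`pos_lt_wid`), the filter is the disjoint
union of (`{(t + 1, i, e (t + 1) i)}` if the `k`-th input is `a`, else `∅`) and (`{(t, j, e t j)}` if the
output of `e t j` is not `a`, else `∅`). -/
theorem card_cons_row {β γ : Type*} (M : Tab) (x : Word) (P : List β) (Q : List γ)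
    (e : ℕ → ℕ → ℕ × List ℕ × ℕ) {t i k : ℕ} (a : ℕ) (ht : t < Q.length)
    (hi : i < (wid M x P Q (t + 1)).length) (hk : k < 3 * M.c + 1) :
    ((optSet M x P Q e).filter fun v => mem M (t + 1, i, k + 1, a) v = true).card =
      (if (e (t + 1) i).2.1.getD k 0 = a then 1 else 0) +
        (if (e t ((M.pos i).getD k 0)).2.2 = a then 0 else 1) := by
  have hj := pos_lt_wid M x P Q ht hi hk
  generalize hjj : (M.pos i).getD k 0 = j at hj
  have hset : ((optSet M x P Q e).filter fun v => mem M (t + 1, i, k + 1, a) v = true) =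
      (if (e (t + 1) i).2.1.getD k 0 = a then {(t + 1, i, e (t + 1) i)} else ∅) ∪
        (if (e t j).2.2 = a then ∅ else {(t, j, e t j)}) := by
    ext v
    rw [Finset.mem_filter, x4_mem_optSet, x4_mem_iff, Finset.mem_union, hjj]
    constructor
    · rintro ⟨⟨_, _, h3⟩, h | h⟩
      · obtain ⟨h4, h5, h6⟩ := h
        left
        rw [h4, h5] at h3
        rw [h3] at h6 ⊢
        rw [if_pos h6]
        exact Finset.mem_singleton_self _
      · obtain ⟨h4, h5, h6⟩ := h
        right
        rw [h4, h5] at h3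
        rw [h3] at h6 ⊢
        rw [if_neg h6]
        exact Finset.mem_singleton_self _
    · rintro (h | h)
      · split_ifs at h with h0
        · rw [Finset.mem_singleton] at h
          subst h
          exact ⟨⟨ht, hi, rfl⟩, Or.inl ⟨rfl, rfl, h0⟩⟩
        · exact absurd h (Finset.notMem_empty _)
      · split_ifs at h with h0
        · exact absurd h (Finset.notMem_empty _)
        · rw [Finset.mem_singleton] at h
          subst h
          exact ⟨⟨ht.le, hj, rfl⟩, Or.inr ⟨rfl, rfl, h0⟩⟩
  rw [hset, Finset.card_union_of_disjoint]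
  · split_ifs <;> simp
  · rw [Finset.disjoint_left]
    intro v h1 h2
    split_ifs at h1 h2 with h3 h4
    · exact absurd h2 (Finset.notMem_empty _)
    · rw [Finset.mem_singleton] at h1 h2
      rw [h1] at h2
      have := congrArg Prod.fst h2
      simp at this
    · exact absurd h1 (Finset.notMem_empty _)
    · exact absurd h1 (Finset.notMem_empty _)

private lemma x4_getD_lt {K : ℕ} (hK : 0 < K) {w : List ℕ} (hw : ∀ a ∈ w, a < K) (k : ℕ) :
    w.getD k 0 < K := by
  rw [List.getD_eq_getElem?_getD]
  rcases h : w[k]? with _ | a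
  · exact hK
  · exact hw a (List.mem_of_getElem? h)

/-- X4b (S). The outputs and the inputs of the options are `< M.K`: `M.of_mem_table`, `hM.δ_lt`,
`hM.sym_lt`, `hM.sep_lt`, `hM.blank_lt`. -/
theorem opts_lt {β γ : Type*} {M : Tab} (hM : M.Ok) (x : Word) (P : List β) (Q : List γ)
    {t i : ℕ} {e : ℕ × List ℕ × ℕ} (he : e ∈ opts M x P Q t i) :
    e.2.2 < M.K ∧ ∀ k, e.2.1.getD k 0 < M.K := by
  have hK : 0 < M.K := lt_of_le_of_lt (Nat.zero_le _) hM.blank_lt
  rcases Nat.eq_zero_or_pos t with rfl | ht
  · simp only [opts, decide_true, cond_true, initOpts] at he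
    rw [List.getD_eq_getElem?_getD] at he
    have key : ∀ e' : ℕ × List ℕ × ℕ, e'.2.1 = [] → e'.2.2 < M.K →
        e'.2.2 < M.K ∧ ∀ k, e'.2.1.getD k 0 < M.K := by
      intro e' h1 h2
      refine ⟨h2, fun k => ?_⟩
      rw [h1]
      simpa using hK
    rcases h : (x.map (fun b => [(0, [], M.sym b)]) ++ [(0, [], M.sep)] ::
        P.map fun _ => [(0, ([] : List ℕ), M.sym false), (1, [], M.sym true)])[i]? with _ | l
    · rw [h] at he
      simp only [Option.getD_none, List.mem_singleton] at he
      subst he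
      exact key _ rfl hM.blank_lt
    · rw [h] at he
      simp only [Option.getD_some] at he
      have hl := List.mem_of_getElem? h
      simp only [List.mem_append, List.mem_map, List.mem_cons] at hl
      rcases hl with ⟨b, _, rfl⟩ | rfl | ⟨b, _, rfl⟩
      · rw [List.mem_singleton] at he
        subst he
        exact key _ rfl (hM.sym_lt b)
      · rw [List.mem_singleton] at he
        subst he
        exact key _ rfl hM.sep_lt
      · simp only [List.mem_cons, List.not_mem_nil, or_false] at he
        rcases he with rfl | rfl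
        · exact key _ rfl (hM.sym_lt _)
        · exact key _ rfl (hM.sym_lt _)
  · have ht' : t ≠ 0 := ht.ne'
    simp only [opts, ht', decide_false, cond_false, stepOpts] at he
    have he' := (List.mem_filter.1 he).1
    have htab : e ∈ M.table := by
      cases hb : (decide (t = Q.length) && decide (i = 0)) with
      | true =>
        rw [hb, cond_true] at he'
        exact (List.mem_filter.1 he').1
      | false =>
        rw [hb, cond_false] at he'
        exact he'
    obtain ⟨h1, h2, h3⟩ := Tab.of_mem_table htab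
    refine ⟨?_, x4_getD_lt hK h2⟩
    rw [h3]
    exact hM.δ_lt _ _ h1 h2

end Pool.Agent.Lib.H10R
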