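import Pool.Agent.Lib.H10R.X3
import Pool.Agent.Lib.H10R.X4

/-!
# X5: the good sets are the sets of the solutions

Chunk X5 of H10R.
-/

set_option autoImplicit false

namespace Pool.Agent.Lib.H10R

open Pool.Agent.PolyTime Pool.Agent.Lib.CookLevin
open Pool.Agent.Lib.H48MaxScatter (encNat encInt parseNat)

/-- X5 (S). `mem_allRows`, `slots_iff`, `card_cons_row`: for `S = optSet M x P Q e` the row
`(t + 1, i, k + 1, a)` is hit exactly once iff (`in = a ↔ out = a`), where `in = (e (t + 1) i).2.1.getD k 0`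
and `out = (e t ((M.pos i).getD k 0)).2.2`; both are `< M.K` (`opts_lt`), so this holds for all `a < M.K` iff
`in = out`. -/
theorem good_iff {β γ : Type*} {M : Tab} (hM : M.Ok) (x : Word) (P : List β) (Q : List γ)
    (S : Finset Opt) :
    Good M x P Q S ↔ ∃ e, IsSol M x P Q e ∧ S = optSet M x P Q e := by
  constructor
  · rintro ⟨hsub, hrow⟩
    obtain ⟨e, he, rfl⟩ := (slots_iff M x P Q S).1 ⟨hsub, fun t ht i hi =>
      hrow (t, i, 0, 0) ((mem_allRows M x P Q _).2 ⟨ht, hi, Or.inl rfl⟩)⟩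
    refine ⟨e, ⟨he, ?_⟩, rfl⟩
    intro t ht i hi k hk
    have h1 := (opts_lt hM x P Q (he (t + 1) ht i hi)).2 k
    have h2 := hrow (t + 1, i, k + 1, (e (t + 1) i).2.1.getD k 0)
      ((mem_allRows M x P Q _).2 ⟨ht, hi, Or.inr ⟨Nat.succ_ne_zero t, k, hk, _, h1, rfl⟩⟩)
    rw [card_cons_row M x P Q e _ ht hi hk, if_pos rfl] at h2
    by_contra hne
    rw [if_neg (fun h => hne h.symm)] at h2
    omega
  · rintro ⟨e, he, rfl⟩
    obtain ⟨h1, h2⟩ := (slots_iff M x P Q (optSet M x P Q e)).2 ⟨e, he.opt, rfl⟩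
    refine ⟨h1, ?_⟩
    rintro ⟨t, i, k', a'⟩ hr
    obtain ⟨h3, h4, h5⟩ := (mem_allRows M x P Q _).1 hr
    simp only at h3 h4 h5
    rcases h5 with h5 | ⟨h0, k, hk, a, ha, h5⟩
    · obtain ⟨rfl, rfl⟩ := Prod.mk.inj h5
      exact h2 t h3 i h4
    · obtain ⟨rfl, rfl⟩ := Prod.mk.inj h5
      obtain ⟨s, rfl⟩ := Nat.exists_eq_succ_of_ne_zero h0
      rw [card_cons_row M x P Q e a' h3 h4 hk, he.con s h3 i h4 k hk]
      split_ifs <;> rfl

end Pool.Agent.Lib.H10R
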