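import Pool.Agent.Lib.H10R.X2

/-!
# X6: every solution is the computation with a certificate

Chunk X6 of H10R.
-/

set_option autoImplicit false

namespace Pool.Agent.Lib.H10R

open Pool.Agent.PolyTime Pool.Agent.Lib.CookLevin
open Pool.Agent.Lib.H48MaxScatter (encNat encInt parseNat)

theorem X6_canon_out (M : Tab) (x y : Word) (t i : ℕ) :
    (canon M x y t i).2.2 = (M.next^[t] (M.initRow x y)) i := by
  cases t with
  | zero => rfl
  | succ t => rfl

/-- X6a (M). Row `0`: put `y = (List.range P.length).map fun j => decide ((e 0 (x.length + 1 + j)).1 = 1)`.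
Then `e 0 i = canon M x y 0 i` for all `i` (cases `i < x.length`, `i = x.length`,
`i < x.length + 1 + P.length`, and the rest; `initOpts` and `Tab.initRow` are `getD` of lists of the same
form). -/
theorem exists_cert {β : Type*} (M : Tab) (x : Word) (P : List β) (e0 : ℕ → ℕ × List ℕ × ℕ) (W : ℕ)
    (hW : x.length + 1 + P.length ≤ W) (h : ∀ i < W, e0 i ∈ initOpts M x P i) :
    ∃ y : Word, y.length = P.length ∧ ∀ i < W, e0 i = canon M x y 0 i := by
  obtain ⟨y, hyl, hyj, hyj'⟩ : ∃ y : Word, y.length = P.length ∧
      (∀ j < P.length, y.getD j false = decide ((e0 (x.length + 1 + j)).1 = 1)) ∧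
      ∀ j, P.length ≤ j → y.getD j false = false := by
    refine ⟨(List.range P.length).map fun j => decide ((e0 (x.length + 1 + j)).1 = 1),
      by simp, ?_, ?_⟩
    · intro j hj
      rw [List.getD_eq_getElem _ _ (by simpa using hj)]
      simp
    · intro j hj
      rw [List.getD_eq_default _ _ (by simpa using hj)]
  refine ⟨y, hyl, ?_⟩
  intro i hi
  have hm := h i hi
  show e0 i = ((bif decide (x.length < i) && y.getD (i - (x.length + 1)) false then 1 else 0), [],
      M.initRow x y i)
  unfold initOpts at hm
  unfold Tab.initRow
  rcases Nat.lt_or_ge i x.length with h1 | h1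
  · rw [List.getD_append _ _ _ _ (by rw [List.length_map]; exact h1),
      List.getD_eq_getElem _ _ (by rw [List.length_map]; exact h1), List.getElem_map,
      List.mem_singleton] at hm
    rw [decide_eq_false (by omega : ¬ x.length < i), Bool.false_and, cond_false,
      List.getD_append _ _ _ _ (by rw [List.length_map]; exact h1),
      List.getD_eq_getElem _ _ (by rw [List.length_map]; exact h1), List.getElem_map]
    exact hm
  · rw [List.getD_append_right _ _ _ _ (by rw [List.length_map]; exact h1), List.length_map] at hm
    rw [List.getD_append_right _ _ _ _ (by rw [List.length_map]; exact h1), List.length_map]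
    rcases Nat.eq_or_lt_of_le h1 with h2 | h2
    · subst h2
      rw [Nat.sub_self, List.getD_cons_zero, List.mem_singleton] at hm
      rw [Nat.sub_self, List.getD_cons_zero, decide_eq_false (lt_irrefl _), Bool.false_and,
        cond_false]
      exact hm
    · obtain ⟨j, hj⟩ : ∃ j, i = x.length + 1 + j := ⟨i - (x.length + 1), by omega⟩
      have e1 : i - x.length = j + 1 := by omega
      have e2 : i - (x.length + 1) = j := by omega
      rw [e1, List.getD_cons_succ] at hm
      rw [e1, e2, List.getD_cons_succ, decide_eq_true h2, Bool.true_and]
      rcases Nat.lt_or_ge j P.length with h3 | h3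
      · rw [List.getD_eq_getElem _ _ (by rw [List.length_map]; exact h3), List.getElem_map] at hm
        have h4 : (y.map M.sym).getD j M.blank = M.sym (y.getD j false) := by
          rw [List.getD_eq_getElem _ _ (by rw [List.length_map, hyl]; exact h3), List.getElem_map,
            List.getD_eq_getElem _ _ (by rw [hyl]; exact h3)]
        rw [h4, hyj j h3, ← hj]
        rcases List.mem_cons.1 hm with h5 | h5
        · rw [h5]
          rfl
        · rw [List.mem_singleton] at h5
          rw [h5]
          rfl
      · rw [List.getD_eq_default _ _ (by rw [List.length_map]; exact h3), List.mem_singleton] at hm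
        rw [hyj' j h3, List.getD_eq_default _ _ (by rw [List.length_map, hyl]; exact h3), cond_false]
        exact hm

/-- X6b (M). Induction on `t` from X6a; for `t + 1`: `e (t + 1) i` is in `M.table` (or `accTable M`, a
filter of it), its first component is `min i M.c`, its inputs are the values of the row `t` (`h.con` and the
induction hypothesis; `M.of_mem_table`: the list of inputs has length `3 * M.c + 1 = (M.pos i).length`,
`List.ext_getElem`), and its output is `M.δ` of them, i.e. `M.next` (`Function.iterate_succ_apply'`).
Last: `(wid ..).length > 0`, and for `t = Q.length > 0`, `i = 0` the entry is in `accTable M`. -/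
theorem IsSol.exists_canon {β γ : Type*} {M : Tab} {x : Word} {P : List β}
    {Q : List γ} (hQ : Q ≠ []) {e : ℕ → ℕ → ℕ × List ℕ × ℕ} (h : IsSol M x P Q e) :
    ∃ y : Word, y.length = P.length ∧
      (∀ t ≤ Q.length, ∀ i < (wid M x P Q t).length, e t i = canon M x y t i) ∧
      M.acc ((M.next^[Q.length] (M.initRow x y)) 0) = true := by
  obtain ⟨y, hyl, hy⟩ := exists_cert M x P (e 0) (wid M x P Q 0).length
    (by rw [length_wid]; omega) (by
      intro i hi
      have h0 := h.opt 0 (Nat.zero_le _) i hi
      unfold opts at h0
      rw [decide_eq_true rfl, cond_true] at h0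
      exact h0)
  have key : ∀ t ≤ Q.length, ∀ i < (wid M x P Q t).length, e t i = canon M x y t i := by
    intro t
    induction t with
    | zero => intro _ i hi; exact hy i hi
    | succ t ih =>
      intro ht i hi
      have h0 := h.opt (t + 1) ht i hi
      unfold opts at h0
      rw [decide_eq_false (Nat.succ_ne_zero t), cond_false] at h0
      unfold stepOpts at h0
      rw [List.mem_filter] at h0
      obtain ⟨h1, h2⟩ := h0
      have h2' : (e (t + 1) i).1 = min i M.c := of_decide_eq_true h2
      have h3 : e (t + 1) i ∈ M.table := by
        cases hd : (decide (t + 1 = Q.length) && decide (i = 0)) with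
        | false => rw [hd, cond_false] at h1; exact h1
        | true =>
          rw [hd, cond_true] at h1
          unfold accTable at h1
          exact (List.mem_filter.1 h1).1
      obtain ⟨h4, -, h5⟩ := Tab.of_mem_table h3
      have h6 : (e (t + 1) i).2.1 = (M.pos i).map (M.next^[t] (M.initRow x y)) := by
        apply List.ext_getElem
        · rw [h4, List.length_map, Tab.pos_length]
        · intro k hk hk'
          have hk1 : k < 3 * M.c + 1 := by rw [← h4]; exact hk
          have hk2 : k < (M.pos i).length := by rw [Tab.pos_length]; exact hk1
          have h7 := h.con t (by omega) i hi k hk1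
          have h8 := pos_lt_wid M x P Q (by omega : t < Q.length) hi hk1
          rw [ih (by omega) _ h8, X6_canon_out, List.getD_eq_getElem _ _ hk,
            List.getD_eq_getElem _ _ hk2] at h7
          rw [h7, List.getElem_map]
      show e (t + 1) i = (min i M.c, (M.pos i).map (M.next^[t] (M.initRow x y)),
        (M.next^[t + 1] (M.initRow x y)) i)
      refine Prod.ext h2' (Prod.ext h6 ?_)
      show (e (t + 1) i).2.2 = (M.next^[t + 1] (M.initRow x y)) i
      rw [h5, h2', h6, Function.iterate_succ_apply']
      rfl
  refine ⟨y, hyl, key, ?_⟩
  have hp : 0 < Q.length := List.length_pos_iff.2 hQ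
  have hw : 0 < (wid M x P Q Q.length).length := by rw [length_wid]; omega
  have h0 := h.opt Q.length le_rfl 0 hw
  unfold opts at h0
  rw [decide_eq_false (by omega : ¬ Q.length = 0), cond_false] at h0
  unfold stepOpts at h0
  rw [List.mem_filter, decide_eq_true rfl, decide_eq_true rfl, Bool.true_and, cond_true] at h0
  have h1 := h0.1
  unfold accTable at h1
  have h2 := (List.mem_filter.1 h1).2
  rw [key Q.length le_rfl 0 hw] at h2
  have h3 := X6_canon_out M x y Q.length 0
  rw [← h3]
  exact h2

end Pool.Agent.Lib.H10R
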