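import Pool.Agent.Lib.H10R.X2

/-!
# X7: the computation with an accepted certificate is a solution

Chunk X7 of H10R.
-/

set_option autoImplicit false

namespace Pool.Agent.Lib.H10R

open Pool.Agent.PolyTime Pool.Agent.Lib.CookLevin
open Pool.Agent.Lib.H48MaxScatter (encNat encInt parseNat)

private theorem X7_canon_snd {M : Tab} {x y : Word} (t j : ℕ) :
    (canon M x y t j).2.2 = (M.next^[t] (M.initRow x y)) j := by
  cases t with
  | zero => rfl
  | succ t => rfl

private theorem X7_init {β : Type*} {M : Tab} {x y : Word} {P : List β}
    (hy : y.length = P.length) (i : ℕ) : canon M x y 0 i ∈ initOpts M x P i := by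
  have hc : canon M x y 0 i =
    ((bif decide (x.length < i) && y.getD (i - (x.length + 1)) false then 1 else 0), [],
      M.initRow x y i) := rfl
  rw [hc, initOpts, Tab.initRow]
  rcases Nat.lt_trichotomy i x.length with hi | hi | hi
  · have h0 : decide (x.length < i) = false := decide_eq_false (by omega)
    rw [h0, Bool.false_and, cond_false]
    rw [List.getD_eq_getElem?_getD, List.getD_eq_getElem?_getD,
      List.getElem?_append_left (by simpa using hi), List.getElem?_append_left (by simpa using hi)]
    simp [hi]
  · subst hi
    have h0 : decide (x.length < x.length) = false := decide_eq_false (by omega)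
    rw [h0, Bool.false_and, cond_false]
    rw [List.getD_eq_getElem?_getD, List.getD_eq_getElem?_getD,
      List.getElem?_append_right (by simp), List.getElem?_append_right (by simp)]
    simp
  · obtain ⟨j, rfl⟩ : ∃ j, i = x.length + 1 + j := ⟨i - (x.length + 1), by omega⟩
    have h0 : decide (x.length < x.length + 1 + j) = true := decide_eq_true (by omega)
    have h1 : x.length + 1 + j - (x.length + 1) = j := by omega
    have h2 : x.length + 1 + j - x.length = j + 1 := by omega
    rw [h0, Bool.true_and, h1]
    rw [List.getD_eq_getElem?_getD, List.getD_eq_getElem?_getD, List.getD_eq_getElem?_getD,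
      List.getElem?_append_right (by simp; omega), List.getElem?_append_right (by simp; omega),
      List.length_map, List.length_map, h2, List.getElem?_cons_succ, List.getElem?_cons_succ,
      List.getElem?_map, List.getElem?_map]
    by_cases hj : j < P.length
    · have hj' : j < y.length := by omega
      rw [List.getElem?_eq_getElem hj, List.getElem?_eq_getElem hj']
      simp only [Option.map_some, Option.getD_some]
      cases y[j] <;> simp
    · have hj' : ¬ j < y.length := by omega
      rw [List.getElem?_eq_none (by omega), List.getElem?_eq_none (by omega)]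
      simp

/-- X7a (M). `opt` for `t = 0`: cases as in `initOpts` (`Tab.initRow` is `getD` of a list of the same form).
For `t + 1`: `M.mem_table`, with `M.pos_length` and `M.iterate_next_lt`, `M.initRow_lt`;
`M.next r i = M.δ (min i M.c) ((M.pos i).map r)`; for `t + 1 = Q.length`, `i = 0` use `hacc`.
`con`: `((M.pos i).map r).getD k 0 = r ((M.pos i).getD k 0)` as `k < (M.pos i).length`, and
`(canon M x y t j).2.2 = (M.next^[t] (M.initRow x y)) j` (cases on `t`). -/
theorem canon_isSol {β γ : Type*} {M : Tab} (hM : M.Ok) {x y : Word} {P : List β} {Q : List γ}
    (hy : y.length = P.length)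
    (hacc : M.acc ((M.next^[Q.length] (M.initRow x y)) 0) = true) :
    IsSol M x P Q (canon M x y) := by
  constructor
  · intro t ht i hi
    cases t with
    | zero =>
      rw [opts, decide_eq_true (rfl : (0 : ℕ) = 0), cond_true]
      exact X7_init hy i
    | succ t =>
      have hlt : ∀ j, (M.next^[t] (M.initRow x y)) j < M.K :=
        fun j => Tab.iterate_next_lt hM (Tab.initRow_lt hM x y) t j
      have hstep : (M.next^[t + 1] (M.initRow x y)) i =
          M.δ (min i M.c) ((M.pos i).map (M.next^[t] (M.initRow x y))) := by
        rw [Function.iterate_succ_apply', Tab.next]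
      have hmem : canon M x y (t + 1) i ∈ M.table := by
        show (min i M.c, (M.pos i).map (M.next^[t] (M.initRow x y)),
          (M.next^[t + 1] (M.initRow x y)) i) ∈ M.table
        rw [hstep]
        refine Tab.mem_table (min_le_right _ _) (by rw [List.length_map, Tab.pos_length]) ?_
        intro a ha
        rw [List.mem_map] at ha
        obtain ⟨j, _, rfl⟩ := ha
        exact hlt j
      rw [opts, decide_eq_false (Nat.succ_ne_zero t), cond_false, stepOpts, List.mem_filter]
      refine ⟨?_, decide_eq_true rfl⟩
      by_cases h : t + 1 = Q.length ∧ i = 0
      · obtain ⟨h1, h2⟩ := h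
        rw [decide_eq_true h1, decide_eq_true h2, Bool.and_self, cond_true, accTable,
          List.mem_filter]
        refine ⟨hmem, ?_⟩
        rw [X7_canon_snd, h1, h2]
        exact hacc
      · have hb : (decide (t + 1 = Q.length) && decide (i = 0)) = false := by
          rw [Bool.eq_false_iff]
          intro hb
          rw [Bool.and_eq_true, decide_eq_true_eq, decide_eq_true_eq] at hb
          exact h hb
        rw [hb, cond_false]
        exact hmem
  · intro t ht i hi k hk
    rw [X7_canon_snd]
    show ((M.pos i).map (M.next^[t] (M.initRow x y))).getD k 0 = _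
    have hk' : k < (M.pos i).length := by rw [Tab.pos_length]; exact hk
    rw [List.getD_eq_getElem _ _ (by simpa using hk'), List.getD_eq_getElem _ _ hk',
      List.getElem_map]

/-- X7b (S). The element `(0, x.length + 1 + j, _)` of the two sets; the first component of
`canon M x y 0 (x.length + 1 + j)` is `1` iff `y.getD j false`. -/
theorem canon_inj {β γ : Type*} {M : Tab} {x y y' : Word} {P : List β} {Q : List γ}
    (hy : y.length = P.length) (hy' : y'.length = P.length)
    (h : optSet M x P Q (canon M x y) = optSet M x P Q (canon M x y')) : y = y' := by
  have key : ∀ j, j < P.length → y.getD j false = y'.getD j false := by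
    intro j hj
    have hw : x.length + 1 + j < (wid M x P Q 0).length := by
      rw [length_wid]; omega
    have hm : ((0, x.length + 1 + j, canon M x y 0 (x.length + 1 + j)) : Opt) ∈
        optSet M x P Q (canon M x y) := by
      rw [optSet, Finset.mem_biUnion]
      refine ⟨0, Finset.mem_range.2 (Nat.succ_pos _), ?_⟩
      rw [Finset.mem_image]
      exact ⟨x.length + 1 + j, Finset.mem_range.2 hw, rfl⟩
    rw [h, optSet, Finset.mem_biUnion] at hm
    obtain ⟨t, _, hm⟩ := hm
    rw [Finset.mem_image] at hm
    obtain ⟨i, _, hm⟩ := hm
    obtain ⟨h1, h2⟩ := Prod.mk.inj hm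
    obtain ⟨h2', h3⟩ := Prod.mk.inj h2
    subst h1
    subst h2'
    have h4 := congrArg Prod.fst h3
    have h0 : decide (x.length < x.length + 1 + j) = true := decide_eq_true (by omega)
    have h1 : x.length + 1 + j - (x.length + 1) = j := by omega
    change (bif decide (x.length < x.length + 1 + j) &&
        y'.getD (x.length + 1 + j - (x.length + 1)) false then 1 else 0) =
      (bif decide (x.length < x.length + 1 + j) &&
        y.getD (x.length + 1 + j - (x.length + 1)) false then 1 else 0) at h4
    rw [h0, Bool.true_and, Bool.true_and, h1] at h4
    generalize List.getD y j false = b at h4 ⊢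
    generalize List.getD y' j false = b' at h4 ⊢
    cases b <;> cases b' <;> first | rfl | exact absurd h4 (by decide)
  refine List.ext_getElem (by rw [hy, hy']) ?_
  intro j h1 h2
  have := key j (by omega)
  rwa [List.getD_eq_getElem _ _ h1, List.getD_eq_getElem _ _ h2] at this

end Pool.Agent.Lib.H10R
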