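import Pool.Agent.Lib.H10R.B1
import Pool.Agent.Lib.H10R.C2
import Pool.Agent.Lib.H10R.X1
import Pool.Agent.Lib.H10R.X5
import Pool.Agent.Lib.H10R.X6
import Pool.Agent.Lib.H10R.X7

/-!
# X8: the number of good sets

Chunk X8 of H10R.
-/

set_option autoImplicit false

namespace Pool.Agent.Lib.H10R

open Pool.Agent.PolyTime Pool.Agent.Lib.CookLevin
open Pool.Agent.Lib.H48MaxScatter (encNat encInt parseNat)

/-- X8a (S). The map `y ↦ optSet M x P Q (canon M x y)` is a bijection from the accepted words `y` of length
`P.length` onto the good sets: `canon_isSol` and `good_iff`; `canon_inj`; `good_iff` and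
`IsSol.exists_canon` (`optSet` depends on the values of `e` on the cells only). -/
theorem card_good {β γ : Type*} {M : Tab} (hM : M.Ok) (x : Word) (P : List β) {Q : List γ}
    (hQ : Q ≠ []) :
    Nat.card {S : Finset Opt // Good M x P Q S} =
      cw P.length (fun y => M.acc ((M.next^[Q.length] (M.initRow x y)) 0) = true) := by
  unfold cw
  symm
  refine Nat.card_eq_of_bijective (fun y => ⟨optSet M x P Q (canon M x y.1),
    (good_iff hM x P Q _).2 ⟨_, canon_isSol hM y.2.1 y.2.2, rfl⟩⟩) ⟨?_, ?_⟩
  · intro y y' h
    have h' := congrArg Subtype.val h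
    exact Subtype.ext (canon_inj y.2.1 y'.2.1 h')
  · rintro ⟨S, hS⟩
    obtain ⟨e, he, rfl⟩ := (good_iff hM x P Q S).1 hS
    obtain ⟨y, hy1, hy2, hy3⟩ := he.exists_canon hQ
    refine ⟨⟨y, hy1, hy3⟩, Subtype.ext ?_⟩
    show optSet M x P Q (canon M x y) = optSet M x P Q e
    unfold optSet
    refine Finset.biUnion_congr rfl fun t ht => ?_
    refine Finset.image_congr fun i hi => ?_
    have ht' : t ≤ Q.length := Nat.lt_succ_iff.1 (Finset.mem_range.1 ht)
    have hi' : i < (wid M x P Q t).length := Finset.mem_range.1 (Finset.mem_coe.1 hi)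
    show (t, i, canon M x y t i) = (t, i, e t i)
    rw [hy2 t ht' i hi']

/-- X8b (S). `fc_nodup` (with `allOpts_nodup`), `sum_num_eq_target_iff` (a subset of `l.toFinset` has at most
`l.length` elements: `List.toFinset_card_le`), and X8a; for the list `nums` use `fc_map` of C1 (the caller
does this). -/
theorem fc_opts {β γ : Type*} {M : Tab} (hM : M.Ok) (x : Word) (P : List β) {Q : List γ}
    (hQ : Q ≠ []) :
    fc (num (mem M) (allRows M x P Q) (allOpts M x P Q)) (allOpts M x P Q)
        (fun s => s = targ M x P Q) =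
      cw P.length (fun y => M.acc ((M.next^[Q.length] (M.initRow x y)) 0) = true) := by
  rw [fc_nodup _ (allOpts_nodup M x P Q), ← card_good hM x P hQ]
  refine Nat.card_congr (Equiv.subtypeEquivRight fun S => ?_)
  unfold Good targ
  refine and_congr_right fun hS => ?_
  exact sum_num_eq_target_iff (mem M) (allRows M x P Q) (allOpts M x P Q) S
    ((Finset.card_le_card hS).trans (List.toFinset_card_le _))

end Pool.Agent.Lib.H10R
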