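import Pool.Agent.Lib.H10R.R1
import Pool.Agent.Lib.H10R.N2
import Pool.Agent.Lib.H10R.X8

/-!
# RTMP is PP-complete under polynomial-time many-one reductions
-/

set_option autoImplicit false

namespace Pool.Agent.Lib.H10R

open Turing Pool.Agent.PolyTime Pool.Agent.Lib.CookLevin
open Pool.Agent.Lib.H48MaxScatter (encNat encInt parseNat)

/-- the instance of RTMP counts the accepted certificates -/
theorem rtmp_inst_iff {β γ : Type*} {M : Tab} (hM : M.Ok) (x : Word) (P : List β) {Q : List γ}
    (hQ : Q ≠ []) : RTMP (inst M x P Q) ↔ 2 ^ P.length <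
      2 * cw P.length (fun y => M.acc ((M.next^[Q.length] (M.initRow x y)) 0) = true) := by
  have hpos : ∀ n ∈ nums M x P Q, 0 < n := by
    intro n hn
    obtain ⟨v, hv, rfl⟩ := List.mem_map.1 hn
    exact num_pos _ _ _ _ (exists_row M x P Q v hv)
  have h1 : fc (fun n => n) (nums M x P Q) (fun s => s = targ M x P Q) =
      cw P.length (fun y => M.acc ((M.next^[Q.length] (M.initRow x y)) 0) = true) := by
    rw [nums, fc_map, ← fc_opts hM x P hQ]
  rw [inst, rtmp_encInst, numSets_kpairs _ hpos, h1, bound, pow2_eq, pow2_eq]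
  have h2 : (nums M x P Q).length = (allOpts M x P Q).length := by simp [nums]
  rw [h2]
  have h3 : (bif decide (kw (nums M x P Q).sum (targ M x P Q) = 0) then 2 else 1) =
      if kw (nums M x P Q).sum (targ M x P Q) = 0 then 2 else 1 := by
    by_cases h : kw (nums M x P Q).sum (targ M x P Q) = 0 <;> simp [h]
  rw [h3]
  generalize (if kw (nums M x P Q).sum (targ M x P Q) = 0 then 2 else 1) = d
  generalize cw P.length _ = N
  omega

theorem rtmp_hard : PPHard RTMP := by
  rintro L ⟨q, R, ⟨h⟩, hL⟩
  obtain ⟨M, hM, hM'⟩ := exists_tab R h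
  obtain ⟨P, hP, hP'⟩ := exists_unary (β := Bool) q
  obtain ⟨T, hT, hT'⟩ := exists_unary (β := Bool) (h.time.comp (Polynomial.X + 1 + q) + 1)
  refine ⟨fun x => inst M x (P x) (T x), PT.tmRaw (PT_inst M PT.id hP hT), fun x => ?_⟩
  have hne : T x ≠ [] := by
    intro h0
    have := hT' x
    rw [h0] at this
    simp at this
  rw [rtmp_inst_iff hM x (P x) hne, hL, ← hP' x]
  have h1 : cw (P x).length
      (fun y => M.acc ((M.next^[(T x).length] (M.initRow x y)) 0) = true) =
      Nat.card {y : Word // y.length = (P x).length ∧ R (x, y) = true} := by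
    rw [← cw]
    refine cw_congr _ fun y hy => ?_
    refine hM' x y _ ?_
    rw [hT', Polynomial.eval_add, Polynomial.eval_comp, Polynomial.eval_one]
    refine le_trans (eval_mono _ ?_) (Nat.le_succ _)
    rw [hP'] at hy
    simp only [Polynomial.eval_add, Polynomial.eval_X, Polynomial.eval_one]
    omega
  rw [h1]

/-- RTMP is PP-complete -/
theorem rtmp_ppComplete : PPComplete RTMP := ⟨rtmp_inPP, rtmp_hard⟩

/-- the reduction in the typed form -/
theorem exists_pt_inst {L : Word → Prop} (hL : InPP L) :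
    ∃ g : Word → Word, PT g ∧ ∀ x, L x ↔ RTMP (g x) := by
  obtain ⟨q, R, ⟨h⟩, hL⟩ := hL
  obtain ⟨M, hM, hM'⟩ := exists_tab R h
  obtain ⟨P, hP, hP'⟩ := exists_unary (β := Bool) q
  obtain ⟨T, hT, hT'⟩ := exists_unary (β := Bool) (h.time.comp (Polynomial.X + 1 + q) + 1)
  refine ⟨fun x => inst M x (P x) (T x), PT_inst M PT.id hP hT, fun x => ?_⟩
  have hne : T x ≠ [] := by
    intro h0
    have := hT' x
    rw [h0] at this
    simp at this
  rw [rtmp_inst_iff hM x (P x) hne, hL, ← hP' x]
  have h1 : cw (P x).length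
      (fun y => M.acc ((M.next^[(T x).length] (M.initRow x y)) 0) = true) =
      Nat.card {y : Word // y.length = (P x).length ∧ R (x, y) = true} := by
    rw [← cw]
    refine cw_congr _ fun y hy => ?_
    refine hM' x y _ ?_
    rw [hT', Polynomial.eval_add, Polynomial.eval_comp, Polynomial.eval_one]
    refine le_trans (eval_mono _ ?_) (Nat.le_succ _)
    rw [hP'] at hy
    simp only [Polynomial.eval_add, Polynomial.eval_X, Polynomial.eval_one]
    omega
  rw [h1]

/-- RTMP is in NP iff NP = PP -/
theorem rtmp_inNP_iff : InNP RTMP ↔ ∀ L : Word → Prop, InNP L ↔ InPP L := by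
  constructor
  · intro h L
    constructor
    · intro hL
      obtain ⟨f, hf, hf'⟩ := cnfSat_hard hL
      exact inPP_of_cnf f hf hf'
    · intro hL
      obtain ⟨g, hg, hg'⟩ := exists_pt_inst hL
      obtain ⟨f, hf, hf'⟩ := cnfSat_hard h
      exact inNP_of_cnf (fun x => f (g x)) (hf.comp hg) fun x => (hg' x).trans (hf' _)
  · intro h
    exact (h RTMP).2 rtmp_inPP

end Pool.Agent.Lib.H10R
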