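import Pool.Agent.Lib.H10R.Base

/-!
# P1: the options and the rows are computable in polynomial time

Chunk P1 of H10R. The examples to copy are in Pool/Agent/Lib/CookLevin/TableauPT.lean
(`PT_cells`, `PT_part3`); see also Pool/Agent/Lib/PolyTime/README.md.
-/

set_option autoImplicit false

namespace Pool.Agent.Lib.H10R

open Pool.Agent.PolyTime Pool.Agent.Lib.CookLevin
open Pool.Agent.Lib.H48MaxScatter (encNat encInt parseNat)

section

variable {α β γ : Type*} [Enc α] [Enc β] [Enc γ] (M : Tab)

/-- P1a (S). `PT.flatMap`, `PT.map`, `PT.append`, `PT.cons`, `PT.const`, `PT.drop`. -/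
theorem PT_wid {x : α → Word} {P : α → List β} {Q : α → List γ} {t : α → ℕ} (hx : PT x)
    (hP : PT P) (hQ : PT Q) (ht : PT t) : PT fun a => wid M (x a) (P a) (Q a) (t a) := by
  unfold wid
  refine PT.append (PT.flatMap (f := fun (_ : α) (_ : γ) => List.replicate M.c ()) (PT.const _)
    (PT.drop hQ ht)) (PT.append (PT.const _) (PT.append (PT.map (f := fun (_ : α) (_ : Bool) => ())
      (PT.const _) hx) (PT.cons (PT.const _) (PT.map (f := fun (_ : α) (_ : β) => ())
        (PT.const _) hP))))

private lemma P1_initOpts {x : α → Word} {P : α → List β} {i : α → ℕ} (hx : PT x)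
    (hP : PT P) (hi : PT i) : PT fun a => initOpts M (x a) (P a) (i a) := by
  unfold initOpts
  refine PT.getD (PT.append (PT.map (f := fun (_ : α) (b : Bool) =>
    [((0 : ℕ), ([] : List ℕ), M.sym b)]) ?_ hx) (PT.cons (PT.const _)
      (PT.map (f := fun (_ : α) (_ : β) => [((0 : ℕ), ([] : List ℕ), M.sym false),
        (1, [], M.sym true)]) (PT.const _) hP))) hi (PT.const _)
  have h : PT fun p : α × Bool => bif p.2 then [((0 : ℕ), ([] : List ℕ), M.sym true)] else
      [((0 : ℕ), ([] : List ℕ), M.sym false)] :=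
    PT.bif (by fun_prop) (PT.const _) (PT.const _)
  refine h.congr fun p => ?_
  rcases p with ⟨_, _ | _⟩ <;> rfl

private lemma P1_stepOpts {T t i : α → ℕ} (hT : PT T) (ht : PT t) (hi : PT i) :
    PT fun a => stepOpts M (T a) (t a) (i a) := by
  unfold stepOpts
  refine PT.filter (f := fun a (e : ℕ × List ℕ × ℕ) => decide (e.1 = min (i a) M.c))
    (PT.decide_eq (by fun_prop) (by fun_prop)) ?_
  exact PT.bif (PT.and (PT.decide_eq ht hT) (PT.decide_eq hi (PT.const _))) (PT.const _)
    (PT.const _)

/-- P1b (M). `initOpts` as `PT_cells` (for `b ↦ [(0, [], M.sym b)]` use `PT.bif` and `PT.congr`) with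
`PT.getD`; `stepOpts`: `PT.filter` of `PT.bif` of two constants. -/
theorem PT_opts {x : α → Word} {P : α → List β} {Q : α → List γ} {t i : α → ℕ} (hx : PT x)
    (hP : PT P) (hQ : PT Q) (ht : PT t) (hi : PT i) :
    PT fun a => opts M (x a) (P a) (Q a) (t a) (i a) := by
  unfold opts
  exact PT.bif (PT.decide_eq ht (PT.const _)) (P1_initOpts M hx hP hi)
    (P1_stepOpts M (PT.length hQ) ht hi)

/-- P1c (S). `PT.flatMap` with `PT.rangeLength` twice, as `PT_part3`. -/
theorem PT_allOpts {x : α → Word} {P : α → List β} {Q : α → List γ} (hx : PT x)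
    (hP : PT P) (hQ : PT Q) : PT fun a => allOpts M (x a) (P a) (Q a) := by
  have h1 : PT fun q : (α × ℕ) × ℕ =>
      (opts M (x q.1.1) (P q.1.1) (Q q.1.1) q.1.2 q.2).map fun e => (q.1.2, q.2, e) := by
    refine PT.map (f := fun (q : (α × ℕ) × ℕ) (e : ℕ × List ℕ × ℕ) => (q.1.2, q.2, e))
      (by fun_prop) (PT_opts M (by fun_prop) (by fun_prop) (by fun_prop) (by fun_prop)
        (by fun_prop))
  have h2 : PT fun q : α × ℕ =>
      (List.range (wid M (x q.1) (P q.1) (Q q.1) q.2).length).flatMap fun i =>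
        (opts M (x q.1) (P q.1) (Q q.1) q.2 i).map fun e => (q.2, i, e) :=
    PT.flatMap (f := fun (q : α × ℕ) (i : ℕ) =>
      (opts M (x q.1) (P q.1) (Q q.1) q.2 i).map fun e => (q.2, i, e)) h1
      (PT.rangeLength (PT_wid M (by fun_prop) (by fun_prop) (by fun_prop) (by fun_prop)))
  have h3 : PT fun a : α => List.range ((Q a).length + 1) := by
    have := PT.rangeLength (PT.cons (PT.const (α := α) ()) (PT.map (f := fun (_ : α) (_ : γ) => ())
      (PT.const _) hQ))
    refine this.congr fun a => ?_
    rw [List.length_cons, List.length_map]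
  exact PT.flatMap (f := fun (a : α) (t : ℕ) =>
      (List.range (wid M (x a) (P a) (Q a) t).length).flatMap fun i =>
        (opts M (x a) (P a) (Q a) t i).map fun e => (t, i, e)) h2 h3

/-- P1d (S). `PT.flatMap` with `PT.rangeLength` twice, `PT.cons`, `PT.bif`, and constant lists. -/
theorem PT_allRows {x : α → Word} {P : α → List β} {Q : α → List γ} (hx : PT x)
    (hP : PT P) (hQ : PT Q) : PT fun a => allRows M (x a) (P a) (Q a) := by
  have h0 : PT fun q : ((α × ℕ) × ℕ) × ℕ =>
      (List.range M.K).map fun a' => (q.1.1.2, q.1.2, q.2 + 1, a') :=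
    PT.map (f := fun (q : ((α × ℕ) × ℕ) × ℕ) (a' : ℕ) => (q.1.1.2, q.1.2, q.2 + 1, a'))
      (by fun_prop) (PT.const _)
  have h1 : PT fun q : (α × ℕ) × ℕ =>
      (q.1.2, q.2, 0, 0) :: (bif decide (q.1.2 = 0) then [] else
        (List.range (3 * M.c + 1)).flatMap fun k =>
          (List.range M.K).map fun a' => (q.1.2, q.2, k + 1, a')) := by
    refine PT.cons (by fun_prop) (PT.bif (PT.decide_eq (by fun_prop) (PT.const _)) (PT.const _) ?_)
    exact PT.flatMap (f := fun (q : (α × ℕ) × ℕ) (k : ℕ) =>
      (List.range M.K).map fun a' => (q.1.2, q.2, k + 1, a')) h0 (PT.const _)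
  have h2 : PT fun q : α × ℕ =>
      (List.range (wid M (x q.1) (P q.1) (Q q.1) q.2).length).flatMap fun i =>
        (q.2, i, 0, 0) :: (bif decide (q.2 = 0) then [] else
          (List.range (3 * M.c + 1)).flatMap fun k =>
            (List.range M.K).map fun a' => (q.2, i, k + 1, a')) :=
    PT.flatMap (f := fun (q : α × ℕ) (i : ℕ) =>
      (q.2, i, 0, 0) :: (bif decide (q.2 = 0) then [] else
          (List.range (3 * M.c + 1)).flatMap fun k =>
            (List.range M.K).map fun a' => (q.2, i, k + 1, a'))) h1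
      (PT.rangeLength (PT_wid M (by fun_prop) (by fun_prop) (by fun_prop) (by fun_prop)))
  have h3 : PT fun a : α => List.range ((Q a).length + 1) := by
    have := PT.rangeLength (PT.cons (PT.const (α := α) ()) (PT.map (f := fun (_ : α) (_ : γ) => ())
      (PT.const _) hQ))
    refine this.congr fun a => ?_
    rw [List.length_cons, List.length_map]
  exact PT.flatMap (f := fun (a : α) (t : ℕ) =>
      (List.range (wid M (x a) (P a) (Q a) t).length).flatMap fun i =>
        (t, i, 0, 0) :: (bif decide (t = 0) then [] else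
          (List.range (3 * M.c + 1)).flatMap fun k =>
            (List.range M.K).map fun a' => (t, i, k + 1, a'))) h2 h3

/-- P1e (S). `PT.bif`, `PT.and`, `PT.or`, `PT.not`, `PT.decide_eq`, `PT.getD`, `M.PT_pos` (CookLevin). -/
theorem PT_mem {r : α → Row} {v : α → Opt} (hr : PT r) (hv : PT v) :
    PT fun a => mem M (r a) (v a) := by
  unfold mem
  refine PT.bif (PT.decide_eq (by fun_prop) (PT.const _))
    (PT.and (PT.decide_eq (by fun_prop) (by fun_prop)) (PT.decide_eq (by fun_prop) (by fun_prop))) ?_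
  refine PT.or (PT.and (PT.and (PT.decide_eq (by fun_prop) (by fun_prop))
    (PT.decide_eq (by fun_prop) (by fun_prop))) (PT.decide_eq (by fun_prop) (by fun_prop)))
    (PT.and (PT.and (PT.decide_eq (by fun_prop) (by fun_prop))
      (PT.decide_eq (by fun_prop) ?_)) (PT.not (PT.decide_eq (by fun_prop) (by fun_prop))))
  exact PT.getD (M.PT_pos (by fun_prop)) (by fun_prop) (PT.const _)

end

end Pool.Agent.Lib.H10R
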