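import Pool.Agent.Lib.H10R.P1

/-!
# P2: the instance is computable in polynomial time

Chunk P2 of H10R.
-/

set_option autoImplicit false

namespace Pool.Agent.Lib.H10R

open Pool.Agent.PolyTime Pool.Agent.Lib.CookLevin
open Pool.Agent.Lib.H48MaxScatter (encNat encInt parseNat)

/-- P2a (S). `val_append`, `val_map_false`, `val_cons`. -/
theorem pow2_eq {β : Type*} (l : List β) : pow2 l = 2 ^ l.length := by
  unfold pow2
  rw [val_append, List.length_map]
  have h : val (l.map fun _ => false) = 0 := by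
    induction l with
    | nil => rfl
    | cons a l ih => rw [List.map_cons, val_cons, ih]; rfl
  rw [h]
  simp

/-- P2b (S). -/
theorem encInst_eq (l : List (ℤ × ℤ)) (K : ℕ) : encInst l K = encRaw (l.map rawP) K := by
  unfold encInst encRaw
  rw [List.flatMap_map]
  rfl

private theorem P2_coe (l : List ℕ) : (do let a ← l; pure (a : ℤ)) = List.map (fun n : ℕ => (n : ℤ)) l := by
  induction l with
  | nil => rfl
  | cons a l ih =>
    rw [List.map_cons, ← ih]
    rfl

private theorem P2_size_sum (l : List ℕ) : l.sum.size ≤ sz l := by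
  induction l with
  | nil => simp
  | cons m l ih =>
    rw [List.sum_cons, sz_cons]
    have h1 := size_add_le m l.sum
    have h2 := size_lt_sz m
    omega

private theorem P2_kw {α : Type*} [Enc α] {f g : α → ℕ} (hf : PT f) (hg : PT g) :
    PT fun a => kw (f a) (g a) := by
  unfold kw
  exact PT.add (PT.sub (PT.mul (PT.const 2) hg) hf) (PT.sub hf (PT.mul (PT.const 2) hg))

private theorem P2_kb {α : Type*} [Enc α] {f g : α → ℕ} (hf : PT f) (hg : PT g) :
    PT fun a => kb (f a) (g a) := by
  unfold kb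
  exact PT.max hg (PT.sub hf hg)

section

variable {α β γ : Type*} [Enc α] [Enc β] [Enc γ] (M : Tab)

/-- P2c (S). `PT.ofBits`, `PT.append`, `PT.map`, `PT.const`. -/
theorem PT_pow2 {l : α → List β} (hl : PT l) : PT fun a => pow2 (l a) := by
  unfold pow2
  exact PT.ofBits (PT.append (PT.map (f := fun (_ : α) (_ : β) => false) (by fun_prop) hl)
    (PT.const [true]))

/-- P2d (S). As `PT_encRI` in Pool/Agent/Lib/H48MaxScatter/Decode.lean
(`Pool.Agent.Lib.H48MaxScatter.PT_encNat`). -/
theorem PT_encRaw {l : α → List (RI × RI)} {K : α → ℕ} (hl : PT l) (hK : PT K) :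
    PT fun a => encRaw (l a) (K a) := by
  have h1 : PT fun x : RI => encRI x :=
    PT.cons PT.fst' (Pool.Agent.Lib.H48MaxScatter.PT_encNat.comp PT.snd')
  unfold encRaw
  refine PT.append (PT.flatMap (f := fun (_ : α) (p : RI × RI) => true :: (encRI p.1 ++ encRI p.2))
    ?_ hl) (PT.cons (by fun_prop) (Pool.Agent.Lib.H48MaxScatter.PT_encNat.comp hK))
  exact PT.cons (by fun_prop) (PT.append (h1.comp (by fun_prop)) (h1.comp (by fun_prop)))

/-- P2e (S). As `PT_sum` in Pool/Agent/Lib/H24U/PTTools.lean (`PT.foldl`; copy the proof, do not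
import). -/
theorem PT_lsum {l : α → List ℕ} (hl : PT l) : PT fun a => (l a).sum := by
  have h1 := PT.foldl (g := fun (_ : α) (s : ℕ) (b : ℕ) => s + b) (s := fun _ => 0) (l := l)
    (by fun_prop) (by fun_prop) hl (B := fun a => 4 * sz (l a) + 1)
    (((PBd.const 4).mul (PT.bdd hl)).add (PBd.const 1)) (by
      intro a l1 l2 h
      rw [← List.sum_eq_foldl]
      have h2 := sz_nat_le l1.sum
      have h3 := P2_size_sum l1
      have h4 := sz_append l1 l2
      have h5 := one_le_sz l2
      rw [← h] at h4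
      omega)
  refine h1.congr fun a => ?_
  rw [← List.sum_eq_foldl]

/-- P2f (S). `PT.map` with `PT.ofBits`, `PT.flatMap`, `PT.cons`, `PT_mem`, `PT_allRows`, `PT_allOpts`. -/
theorem PT_nums {x : α → Word} {P : α → List β} {Q : α → List γ} (hx : PT x)
    (hP : PT P) (hQ : PT Q) : PT fun a => nums M (x a) (P a) (Q a) := by
  have hR := PT_allRows M hx hP hQ
  have hO := PT_allOpts M hx hP hQ
  unfold nums num
  refine PT.map (f := fun (a : α) (v : Opt) => val ((allRows M (x a) (P a) (Q a)).flatMap fun r =>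
    mem M r v :: (allOpts M (x a) (P a) (Q a)).map fun _ => false)) ?_ hO
  refine PT.ofBits (PT.flatMap (f := fun (p : α × Opt) (r : Row) =>
    mem M r p.2 :: (allOpts M (x p.1) (P p.1) (Q p.1)).map fun _ => false) ?_ (hR.comp PT.fst'))
  refine PT.cons (PT_mem M (by fun_prop) (by fun_prop)) ?_
  exact PT.map (f := fun (_ : (α × Opt) × Row) (_ : Opt) => false) (by fun_prop)
    (hO.comp (f := fun p : (α × Opt) × Row => p.1.1) (by fun_prop))

/-- P2g (S). -/
theorem PT_targ {x : α → Word} {P : α → List β} {Q : α → List γ} (hx : PT x)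
    (hP : PT P) (hQ : PT Q) : PT fun a => targ M (x a) (P a) (Q a) := by
  have hR := PT_allRows M hx hP hQ
  have hO := PT_allOpts M hx hP hQ
  unfold targ target
  refine PT.ofBits (PT.flatMap (f := fun (a : α) (_ : Row) =>
    true :: (allOpts M (x a) (P a) (Q a)).map fun _ => false) ?_ hR)
  refine PT.cons (by fun_prop) ?_
  exact PT.map (f := fun (_ : α × Row) (_ : Opt) => false) (by fun_prop) (hO.comp PT.fst')

/-- P2h (S). `PT.div`, `PT.add`, `PT.mul`, `PT.sub`, `PT.bif`, `PT.decide_eq`. -/
theorem PT_bound {x : α → Word} {P : α → List β} {Q : α → List γ} (hx : PT x)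
    (hP : PT P) (hQ : PT Q) : PT fun a => bound M (x a) (P a) (Q a) := by
  have hO := PT_pow2 (PT_allOpts M hx hP hQ)
  have hP2 := PT_pow2 hP
  have hk := P2_kw (PT_lsum (PT_nums M hx hP hQ)) (PT_targ M hx hP hQ)
  unfold bound
  exact PT.add (PT.add hO (PT.add (PT.div hP2 (PT.const 2)) (PT.const 1)))
    (PT.bif (PT.decide_eq hk (PT.const 0)) (PT.const 2) (PT.const 1))

/-- P2i (S). By P2b the word is `encRaw L K` with
`L = ((false, kb ..), (false, 0)) :: ((false, 0), (false, kw ..)) :: nums.map fun n => ((false, 0), (false, n))`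
(`rawI (n : ℤ) = (false, n)`). -/
theorem PT_inst {x : α → Word} {P : α → List β} {Q : α → List γ} (hx : PT x)
    (hP : PT P) (hQ : PT Q) : PT fun a => inst M (x a) (P a) (Q a) := by
  have hN := PT_nums M hx hP hQ
  have hT := PT_targ M hx hP hQ
  have hS := PT_lsum hN
  have hk := P2_kw hS hT
  have hb := P2_kb hS hT
  have h1 : PT fun a => encRaw (((false, kb (nums M (x a) (P a) (Q a)).sum (targ M (x a) (P a) (Q a))),
      (false, 0)) :: ((false, 0), (false, kw (nums M (x a) (P a) (Q a)).sum
        (targ M (x a) (P a) (Q a)))) :: (nums M (x a) (P a) (Q a)).map fun n =>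
        (((false, 0), (false, n)) : RI × RI)) (bound M (x a) (P a) (Q a)) := by
    refine PT_encRaw (PT.cons (by fun_prop) (PT.cons (by fun_prop)
      (PT.map (f := fun (_ : α) (n : ℕ) => (((false, 0), (false, n)) : RI × RI)) (by fun_prop) hN)))
      (PT_bound M hx hP hQ)
  refine h1.congr fun a => ?_
  unfold inst
  rw [encInst_eq]
  unfold kpairs
  rw [P2_coe]
  simp only [List.map_cons, List.map_map]
  have h2 : ∀ n : ℕ, rawI (n : ℤ) = (false, n) := fun n => by
    unfold rawI
    rw [Int.natAbs_natCast, decide_eq_false (by omega)]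
  have h3 : rawI (0 : ℤ) = (false, 0) := h2 0
  have h4 : ∀ n : ℕ, rawP ((n : ℤ), (0 : ℤ)) = ((false, n), (false, 0)) := fun n => by
    unfold rawP
    rw [h2, h3]
  have h5 : ∀ n : ℕ, rawP ((0 : ℤ), (n : ℤ)) = ((false, 0), (false, n)) := fun n => by
    unfold rawP
    rw [h2, h3]
  rw [h4, h5]
  congr 3

end

end Pool.Agent.Lib.H10R
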