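import Pool.Agent.Lib.H10R.C4
import Pool.Agent.Lib.H10R.C5
import Pool.Agent.Lib.H10R.D2
import Pool.Agent.Lib.H10R.K2
import Pool.Agent.Lib.H10R.P2

/-!
# R1: RTMP is in PP

Chunk R1 of H10R.
-/

set_option autoImplicit false

namespace Pool.Agent.Lib.H10R

open Pool.Agent.PolyTime Pool.Agent.Lib.CookLevin
open Pool.Agent.Lib.H48MaxScatter (encNat encInt parseNat)

private lemma r1_PT_rdist : PT rdist := by
  unfold rdist
  exact PT.bif (by fun_prop) (by fun_prop) (by fun_prop)

private lemma r1_PT_rpos : PT rpos := by
  unfold rpos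
  exact PT.bif (by fun_prop) (PT.bif (by fun_prop) (by fun_prop) (by fun_prop))
    (PT.bif (by fun_prop) (by fun_prop) (by fun_prop))

private lemma r1_PT_selSum {α : Type*} [Enc α] {s : α → Word} {a : α → List ℕ} (hs : PT s)
    (ha : PT a) : PT fun x => selSum (s x) (a x) := by
  unfold selSum
  refine PT_lsum (PT.zipWith (f := fun (_ : α) (b : Bool) (n : ℕ) => bif b then n else 0) ?_ hs ha)
  exact PT.bif (by fun_prop) (by fun_prop) (by fun_prop)

/-- R1a (S). `PT_validB`, `PT_readInst`, `PT.bif`, `PT.zipWith`, `PT_lsum`, `PT_pow2`, `PT.ofBits`. -/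
theorem PT_ppVerify : PT ppVerify := by
  unfold ppVerify
  have h1 : PT fun p : Word × Word => (readInst p.1).1 := (PT_readInst.comp PT.fst').fst
  have h2 : PT fun p : Word × Word => (readInst p.1).2 := (PT_readInst.comp PT.fst').snd
  refine PT.and (PT_validB.comp PT.fst') (PT.bif (by fun_prop) ?_ ?_)
  · refine PT.decide_le (r1_PT_selSum (by fun_prop) ?_) (PT_lsum ?_)
    · exact PT.map (f := fun (_ : Word × Word) (p : RI × RI) => rdist p)
        (r1_PT_rdist.comp PT.snd') h1
    · exact PT.map (f := fun (_ : Word × Word) (p : RI × RI) => rpos p)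
        (r1_PT_rpos.comp PT.snd') h1
  · refine PT.decide_le (PT.add (PT.ofBits (by fun_prop)) (PT.mul h2 (PT_pow2 ?_)))
      (PT_pow2 PT.fst')
    exact PT.drop PT.fst' (PT.length h1)

private lemma r1_rdist (p : ℤ × ℤ) : rdist (rawP p) = (p.1 - p.2).natAbs := by
  obtain ⟨a, b⟩ := p
  unfold rdist rawP rawI
  by_cases ha : a < 0 <;> by_cases hb : b < 0 <;>
    simp only [ha, hb, decide_true, decide_false, Bool.xor_self, Bool.xor_false, Bool.xor_true,
      Bool.not_false, cond_true, cond_false] <;> omega

private lemma r1_rpos (p : ℤ × ℤ) :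
    (rpos (rawP p) : ℤ) = if p.2 < p.1 then p.1 - p.2 else 0 := by
  obtain ⟨a, b⟩ := p
  unfold rpos rawP rawI
  by_cases ha : a < 0 <;> by_cases hb : b < 0 <;> by_cases hab : b < a <;>
    simp only [ha, hb, hab, decide_true, decide_false, cond_true, cond_false, if_true, if_false] <;>
    omega

private lemma r1_posSum (l : List (ℤ × ℤ)) :
    (((l.map rawP).map rpos).sum : ℤ) = posSum l := by
  induction l with
  | nil => rfl
  | cons p l ih =>
    rw [posSum_cons, ← ih, ← r1_rpos]
    push_cast [List.map_cons, List.sum_cons]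
    rfl

private lemma r1_length_le (l : List (ℤ × ℤ)) (K : ℕ) : l.length ≤ (encInst l K).length := by
  unfold encInst
  rw [List.length_append]
  have h : l.length ≤ (l.flatMap fun p => true :: (encInt p.1 ++ encInt p.2)).length := by
    induction l with
    | nil => simp
    | cons p l ih =>
      rw [List.flatMap_cons, List.length_append, List.length_cons, List.length_cons]
      omega
  omega

/-- R1b (M). `cw_succ`; `readInst_encInst`, `validB_iff`; for `true :: s`: the condition is
`selSum s (l.map fun p => (p.1 - p.2).natAbs) ≤ (posSum l).toNat`, `cw_selSum`, `fc_map`, `numSets_eq`;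
for `false :: s`: `cw_val_le` with `C = K * 2 ^ (m - n)`, `pow2_eq`. -/
theorem cw_ppVerify (l : List (ℤ × ℤ)) (K : ℕ) :
    cw ((encInst l K).length + 1) (fun y => ppVerify (encInst l K, y) = true) =
      numSets l * 2 ^ ((encInst l K).length - l.length) +
        min (2 ^ (encInst l K).length)
          (2 ^ (encInst l K).length + 1 - K * 2 ^ ((encInst l K).length - l.length)) := by
  have hv : validB (encInst l K) = true := (validB_iff _).2 ⟨l, K, rfl⟩
  have hr := readInst_encInst l K
  have hlen := r1_length_le l K
  rw [cw_succ]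
  congr 1
  · have h1 : cw (encInst l K).length (fun s => ppVerify (encInst l K, true :: s) = true) =
        cw (encInst l K).length (fun s => (fun t : ℕ => (t : ℤ) ≤ posSum l)
          (selSum s (l.map fun p => (p.1 - p.2).natAbs))) := by
      refine cw_congr _ fun y _ => ?_
      unfold ppVerify
      have h2 : (l.map rawP).map rdist = l.map fun p => (p.1 - p.2).natAbs := by
        rw [List.map_map]
        exact List.map_congr_left fun p _ => r1_rdist p
      simp only [hv, hr, Bool.true_and, List.headD_cons, cond_true, List.tail_cons,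
        decide_eq_true_eq, h2]
      rw [← r1_posSum l]
      exact Nat.cast_le.symm
    have h3 := cw_selSum (l.map fun p => (p.1 - p.2).natAbs) (encInst l K).length
      (by rw [List.length_map]; exact hlen) (fun t : ℕ => (t : ℤ) ≤ posSum l)
    rw [h1, h3, List.length_map, fc_map, numSets_eq]
  · have h1 : cw (encInst l K).length (fun s => ppVerify (encInst l K, false :: s) = true) =
        cw (encInst l K).length (fun s => val s + K * 2 ^ ((encInst l K).length - l.length) ≤
          2 ^ (encInst l K).length) := by
      refine cw_congr _ fun y _ => ?_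
      unfold ppVerify
      simp only [hv, hr, Bool.true_and, List.headD_cons, cond_false, List.tail_cons,
        decide_eq_true_eq, pow2_eq, List.length_drop, List.length_map]
    rw [h1, cw_val_le]

private lemma r1_numSets_pos (l : List (ℤ × ℤ)) : 1 ≤ numSets l := by
  unfold numSets
  refine Finset.card_pos.2 ⟨∅, ?_⟩
  rw [Finset.mem_filter]
  refine ⟨Finset.mem_univ _, ?_⟩
  rw [Finset.sum_empty, ← r1_posSum l]
  exact Int.natCast_nonneg _

private lemma r1_numSets_le (l : List (ℤ × ℤ)) : numSets l ≤ 2 ^ l.length := by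
  unfold numSets
  refine (Finset.card_filter_le _ _).trans ?_
  rw [Finset.card_univ, Fintype.card_finset, Fintype.card_fin]

private lemma r1_arith (K N P R : ℕ) (hR : 1 ≤ R) (hN : 1 ≤ N) (hNR : N * R ≤ P) :
    2 * P < 2 * (N * R + min P (P + 1 - K * R)) ↔ K ≤ N := by
  constructor
  · intro h
    by_contra hK
    have hK' : N + 1 ≤ K := by omega
    have h1 : (N + 1) * R ≤ K * R := Nat.mul_le_mul_right R hK'
    have h2 : (N + 1) * R = N * R + R := by ring
    have h3 : min P (P + 1 - K * R) ≤ P + 1 - K * R := min_le_right _ _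
    omega
  · intro hK
    have h1 : K * R ≤ N * R := Nat.mul_le_mul_right R hK
    have h2 : 1 * 1 ≤ N * R := Nat.mul_le_mul hN hR
    rcases le_total P (P + 1 - K * R) with h3 | h3
    · rw [min_eq_left h3]
      omega
    · rw [min_eq_right h3]
      omega

/-- R1c (S). From R1b with `m = |w|`, `n = l.length ≤ m`, `r = m - n`, `1 ≤ numSets l ≤ 2 ^ n`
(the empty set; `fc` of everything): `2 ^ (m + 1) < 2 * count` iff `K ≤ numSets l`. For `K > 2 ^ n` the
minimum is `0` and `numSets l * 2 ^ r ≤ 2 ^ m`; for `K = 0` the minimum is `2 ^ m`; otherwise it is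
`2 ^ m + 1 - K * 2 ^ r`. If `w` is not an instance, the count is `0`. `PT.tmPair` gives the machine;
`q = X + 1`. -/
theorem rtmp_inPP : InPP RTMP := by
  refine ⟨Polynomial.X + 1, ppVerify, PT_ppVerify.tmPair, fun x => ?_⟩
  have hq : (Polynomial.X + 1 : Polynomial ℕ).eval x.length = x.length + 1 := by simp
  rw [hq]
  have hc : Nat.card {y : Word // y.length = x.length + 1 ∧ ppVerify (x, y) = true} =
      cw (x.length + 1) (fun y => ppVerify (x, y) = true) := rfl
  rw [hc]
  by_cases hx : validB x = true
  · obtain ⟨l, K, rfl⟩ := (validB_iff x).1 hx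
    rw [rtmp_encInst, cw_ppVerify, pow_succ, mul_comm (2 ^ (encInst l K).length) 2]
    refine (r1_arith K (numSets l) _ _ Nat.one_le_two_pow (r1_numSets_pos l) ?_).symm
    calc numSets l * 2 ^ ((encInst l K).length - l.length)
        ≤ 2 ^ l.length * 2 ^ ((encInst l K).length - l.length) :=
          Nat.mul_le_mul_right _ (r1_numSets_le l)
      _ = 2 ^ (encInst l K).length := by
          rw [← pow_add, Nat.add_sub_cancel' (r1_length_le l K)]
  · have h0 : cw (x.length + 1) (fun y => ppVerify (x, y) = true) = 0 := by
      rw [← cw_false (x.length + 1)]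
      refine cw_congr _ fun y _ => ?_
      unfold ppVerify
      simp [hx]
    rw [h0]
    constructor
    · rintro ⟨l, K, h, _⟩
      exact absurd ((validB_iff x).2 ⟨l, K, h⟩) hx
    · intro h
      exact absurd h (by simp)

end Pool.Agent.Lib.H10R
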