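import Pool.Agent.Lib.H10R.Base

/-!
# X2: the cells of the tableau

Chunk X2 of H10R.
-/

set_option autoImplicit false

namespace Pool.Agent.Lib.H10R

open Pool.Agent.PolyTime Pool.Agent.Lib.CookLevin
open Pool.Agent.Lib.H48MaxScatter (encNat encInt parseNat)

section

variable {β γ : Type*} (M : Tab) (x : Word) (P : List β) (Q : List γ)

/-- X2a (S). -/
theorem length_wid (t : ℕ) : (wid M x P Q t).length =
    (Q.length - t) * M.c + (M.c + 1 + (x.length + 1 + P.length)) := by
  have h : ∀ l : List γ, (l.flatMap fun _ => List.replicate M.c ()).length = l.length * M.c := by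
    intro l
    induction l with
    | nil => simp
    | cons a l ih =>
      rw [List.flatMap_cons, List.length_append, ih, List.length_replicate, List.length_cons]
      ring
  rw [wid, List.length_append, h, List.length_drop]
  simp only [List.length_append, List.length_replicate, List.length_map, List.length_cons]
  ring

/-- X2b (S). -/
theorem mem_allOpts (v : Opt) : v ∈ allOpts M x P Q ↔
    v.1 ≤ Q.length ∧ v.2.1 < (wid M x P Q v.1).length ∧ v.2.2 ∈ opts M x P Q v.1 v.2.1 := by
  obtain ⟨t, i, e⟩ := v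
  simp only [allOpts, List.mem_flatMap, List.mem_range, List.mem_map]
  constructor
  · rintro ⟨t', ht', i', hi', e', he', h⟩
    obtain ⟨h1, h2⟩ := Prod.mk.inj h
    obtain ⟨h2, h3⟩ := Prod.mk.inj h2
    subst h1 h2 h3
    exact ⟨by omega, hi', he'⟩
  · rintro ⟨h1, h2, h3⟩
    exact ⟨t, by omega, i, h2, e, h3, rfl⟩

/-- X2c (S). -/
theorem mem_allRows (r : Row) : r ∈ allRows M x P Q ↔
    r.1 ≤ Q.length ∧ r.2.1 < (wid M x P Q r.1).length ∧
      (r.2.2 = (0, 0) ∨ (r.1 ≠ 0 ∧ ∃ k < 3 * M.c + 1, ∃ a < M.K, r.2.2 = (k + 1, a))) := by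
  obtain ⟨t, i, k, a⟩ := r
  simp only [allRows, List.mem_flatMap, List.mem_range, List.mem_cons]
  constructor
  · rintro ⟨t', ht', i', hi', h⟩
    rcases h with h | h
    · obtain ⟨h1, h2⟩ := Prod.mk.inj h
      obtain ⟨h2, h3⟩ := Prod.mk.inj h2
      subst h1 h2
      exact ⟨by omega, hi', Or.inl h3⟩
    · by_cases h0 : t' = 0
      · subst h0
        simp at h
      · rw [decide_eq_false h0, cond_false, List.mem_flatMap] at h
        obtain ⟨k', hk', h⟩ := h
        rw [List.mem_map] at h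
        obtain ⟨a', ha', h⟩ := h
        rw [List.mem_range] at hk' ha'
        obtain ⟨h1, h2⟩ := Prod.mk.inj h
        obtain ⟨h2, h3⟩ := Prod.mk.inj h2
        subst h1 h2
        exact ⟨by omega, hi', Or.inr ⟨h0, k', hk', a', ha', h3.symm⟩⟩
  · rintro ⟨h1, h2, h3⟩
    refine ⟨t, by omega, i, h2, ?_⟩
    rcases h3 with h3 | ⟨h0, k', hk', a', ha', h3⟩
    · left
      exact Prod.ext rfl (Prod.ext rfl h3)
    · right
      rw [decide_eq_false h0, cond_false, List.mem_flatMap]
      refine ⟨k', List.mem_range.2 hk', List.mem_map.2 ⟨a', List.mem_range.2 ha', ?_⟩⟩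
      exact Prod.ext rfl (Prod.ext rfl h3.symm)

/-- X2d (S). Every option belongs to the row of its slot (`mem M (t, i, 0, 0) v`). -/
theorem exists_row (v : Opt) (hv : v ∈ allOpts M x P Q) :
    ∃ r ∈ allRows M x P Q, mem M r v = true := by
  obtain ⟨h1, h2, -⟩ := (mem_allOpts M x P Q v).1 hv
  refine ⟨(v.1, v.2.1, 0, 0), (mem_allRows M x P Q _).2 ⟨h1, h2, Or.inl rfl⟩, ?_⟩
  simp [mem]

/-- X2e (S). `M.mem_pos` (in CookLevin/Tableau.lean; `M.pos_length`) and X2a. -/
theorem pos_lt_wid {t i k : ℕ} (ht : t < Q.length) (hi : i < (wid M x P Q (t + 1)).length)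
    (hk : k < 3 * M.c + 1) : (M.pos i).getD k 0 < (wid M x P Q t).length := by
  have hk' : k < (M.pos i).length := by rw [Tab.pos_length]; exact hk
  have hm : (M.pos i).getD k 0 ∈ M.pos i := by
    rw [List.getD_eq_getElem _ _ hk']
    exact List.getElem_mem hk'
  have h := Tab.mem_pos hm
  rw [length_wid] at hi ⊢
  obtain ⟨q, hq⟩ : ∃ q, Q.length - t = q + 1 := ⟨Q.length - t - 1, by omega⟩
  have hq' : Q.length - (t + 1) = q := by omega
  rw [hq'] at hi
  rw [hq, Nat.succ_mul]
  rcases h with h | h <;> omega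

end

end Pool.Agent.Lib.H10R
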