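import Pool.Agent.Lib.H10R.X2

/-!
# X3: exactly one option for every slot

Chunk X3 of H10R.
-/

set_option autoImplicit false

namespace Pool.Agent.Lib.H10R

open Pool.Agent.PolyTime Pool.Agent.Lib.CookLevin
open Pool.Agent.Lib.H48MaxScatter (encNat encInt parseNat)

private theorem X3_mem_slot (M : Tab) (t i : ℕ) (v : Opt) :
    mem M (t, i, 0, 0) v = true ↔ v.1 = t ∧ v.2.1 = i := by
  simp [mem]

private theorem X3_mem_optSet {β γ : Type*} (M : Tab) (x : Word) (P : List β) (Q : List γ)
    (e : ℕ → ℕ → ℕ × List ℕ × ℕ) (v : Opt) :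
    v ∈ optSet M x P Q e ↔
      ∃ t ≤ Q.length, ∃ i < (wid M x P Q t).length, (t, i, e t i) = v := by
  simp only [optSet, Finset.mem_biUnion, Finset.mem_range, Finset.mem_image, Nat.lt_succ_iff]

/-- X3 (M). If `S` is a set of options with exactly one element in every slot row, then choose `e t i` with
`(t, i, e t i) ∈ S` for `t ≤ Q.length`, `i < (wid M x P Q t).length` (`Finset.card_eq_one`; elsewhere
arbitrary, e.g. by `if`/`choose`); both inclusions of `S = optSet M x P Q e` follow from `mem_allOpts` and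
uniqueness. Conversely, `optSet M x P Q e ⊆ (allOpts M x P Q).toFinset` by `mem_allOpts`, and the filter
is `{(t, i, e t i)}`. -/
theorem slots_iff {β γ : Type*} (M : Tab) (x : Word) (P : List β) (Q : List γ) (S : Finset Opt) :
    (S ⊆ (allOpts M x P Q).toFinset ∧ ∀ t ≤ Q.length, ∀ i < (wid M x P Q t).length,
      (S.filter fun v => mem M (t, i, 0, 0) v = true).card = 1) ↔
    ∃ e : ℕ → ℕ → ℕ × List ℕ × ℕ,
      (∀ t ≤ Q.length, ∀ i < (wid M x P Q t).length, e t i ∈ opts M x P Q t i) ∧
      S = optSet M x P Q e := by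
  constructor
  · rintro ⟨hS, h1⟩
    have h2 : ∀ t i : ℕ, ∃ a : ℕ × List ℕ × ℕ, t ≤ Q.length → i < (wid M x P Q t).length →
        S.filter (fun v => mem M (t, i, 0, 0) v = true) = {(t, i, a)} := by
      intro t i
      by_cases ht : t ≤ Q.length ∧ i < (wid M x P Q t).length
      · obtain ⟨v, hv⟩ := Finset.card_eq_one.1 (h1 t ht.1 i ht.2)
        have hv' : v ∈ S.filter (fun v => mem M (t, i, 0, 0) v = true) := by
          rw [hv]; exact Finset.mem_singleton_self v
        obtain ⟨a, b, c⟩ := v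
        rw [Finset.mem_filter, X3_mem_slot] at hv'
        obtain ⟨-, h3, h4⟩ := hv'
        simp only at h3 h4
        subst h3; subst h4
        exact ⟨c, fun _ _ => hv⟩
      · exact ⟨(0, [], 0), fun h h' => absurd ⟨h, h'⟩ ht⟩
    choose e he using h2
    have hmem : ∀ t ≤ Q.length, ∀ i < (wid M x P Q t).length, (t, i, e t i) ∈ S := by
      intro t ht i hi
      have h3 : (t, i, e t i) ∈ S.filter (fun v => mem M (t, i, 0, 0) v = true) := by
        rw [he t i ht hi]; exact Finset.mem_singleton_self _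
      exact (Finset.mem_filter.1 h3).1
    refine ⟨e, ?_, ?_⟩
    · intro t ht i hi
      exact ((mem_allOpts M x P Q _).1 (List.mem_toFinset.1 (hS (hmem t ht i hi)))).2.2
    · ext v
      rw [X3_mem_optSet]
      constructor
      · intro hv
        have hv2 := (mem_allOpts M x P Q v).1 (List.mem_toFinset.1 (hS hv))
        have hv3 : v ∈ S.filter (fun w => mem M (v.1, v.2.1, 0, 0) w = true) :=
          Finset.mem_filter.2 ⟨hv, (X3_mem_slot M _ _ _).2 ⟨rfl, rfl⟩⟩
        rw [he v.1 v.2.1 hv2.1 hv2.2.1, Finset.mem_singleton] at hv3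
        exact ⟨v.1, hv2.1, v.2.1, hv2.2.1, hv3.symm⟩
      · rintro ⟨t, ht, i, hi, rfl⟩
        exact hmem t ht i hi
  · rintro ⟨e, he, rfl⟩
    refine ⟨?_, ?_⟩
    · intro v hv
      obtain ⟨t, ht, i, hi, rfl⟩ := (X3_mem_optSet M x P Q e v).1 hv
      exact List.mem_toFinset.2 ((mem_allOpts M x P Q _).2 ⟨ht, hi, he t ht i hi⟩)
    · intro t ht i hi
      rw [Finset.card_eq_one]
      refine ⟨(t, i, e t i), ?_⟩
      ext v
      rw [Finset.mem_filter, X3_mem_slot, Finset.mem_singleton, X3_mem_optSet]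
      constructor
      · rintro ⟨⟨t', ht', i', hi', rfl⟩, h1, h2⟩
        simp only at h1 h2
        subst h1; subst h2; rfl
      · rintro rfl
        exact ⟨⟨t, ht, i, hi, rfl⟩, rfl, rfl⟩

end Pool.Agent.Lib.H10R
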